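import Mathlib

namespace Pool.Agent.Lib_helper85.SSP

open Finset InnerProductSpace Submodule Matrix

/-- multiplication by `μ` -/
noncomputable def mulOp {n : ℕ} (μ : Fin (n + 1) → ℝ) :
    EuclideanSpace ℝ (Fin (n + 1)) →ₗ[ℝ] EuclideanSpace ℝ (Fin (n + 1)) where
  toFun x := WithLp.toLp 2 (fun i => μ i * x i)
  map_add' x y := by
    ext i
    simp [mul_add]
  map_smul' c x := by
    ext i
    simp only [PiLp.smul_apply, smul_eq_mul, RingHom.id_apply]
    ring

lemma mulOp_apply {n : ℕ} (μ : Fin (n + 1) → ℝ) (x : EuclideanSpace ℝ (Fin (n + 1)))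
    (i : Fin (n + 1)) : mulOp μ x i = μ i * x i := rfl

/-- the vector of powers -/
noncomputable def powVec {n : ℕ} (μ : Fin (n + 1) → ℝ) (k : Fin (n + 1)) :
    EuclideanSpace ℝ (Fin (n + 1)) := WithLp.toLp 2 (fun i => μ i ^ k.val)

lemma powVec_apply {n : ℕ} (μ : Fin (n + 1) → ℝ) (k i : Fin (n + 1)) :
    powVec μ k i = μ i ^ k.val := rfl

/-- Existence of a Jacobi matrix with prescribed distinct eigenvalues, in the form of the
orthogonal matrix of its eigenvectors. -/
theorem exists_jacobi (n : ℕ) (μ : Fin (n + 1) → ℝ) (hμ : Function.Injective μ) :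
    ∃ e : Fin (n + 1) → Fin (n + 1) → ℝ,
      (∀ k l, ∑ i, e k i * e l i = if k = l then 1 else 0) ∧
      (∀ k l : Fin (n + 1), k.val + 1 < l.val → ∑ i, μ i * (e k i * e l i) = 0) ∧
      (∀ k l : Fin (n + 1), k.val + 1 = l.val → ∑ i, μ i * (e k i * e l i) ≠ 0) := by
  classical
  let v : Fin (n + 1) → EuclideanSpace ℝ (Fin (n + 1)) := powVec μ
  have hli : LinearIndependent ℝ v := by
    have hdet : (Matrix.vandermonde μ).det ≠ 0 := Matrix.det_vandermonde_ne_zero_iff.mpr hμ
    have hdet' : (Matrix.vandermonde μ)ᵀ.det ≠ 0 := by rwa [Matrix.det_transpose]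
    have h1 : LinearIndependent ℝ (Matrix.vandermonde μ)ᵀ.row :=
      Matrix.linearIndependent_rows_of_det_ne_zero hdet'
    have h2 : LinearIndependent ℝ (fun k : Fin (n + 1) => fun i => μ i ^ k.val) := h1
    rw [Fintype.linearIndependent_iff] at h2 ⊢
    intro g hg
    apply h2 g
    ext i
    have := congrArg (fun x : EuclideanSpace ℝ (Fin (n + 1)) => x i) hg
    simpa [v, powVec_apply] using this
  let D := mulOp μ
  have hDv : ∀ k l : Fin (n + 1), k.val + 1 = l.val → D (v k) = v l := by
    intro k l hkl
    ext i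
    simp only [D, v, mulOp_apply, powVec_apply]
    rw [← hkl, pow_succ]
    ring
  let e : Fin (n + 1) → EuclideanSpace ℝ (Fin (n + 1)) := gramSchmidtNormed ℝ v
  have hon : Orthonormal ℝ e := gramSchmidtNormed_orthonormal hli
  have hspan : ∀ k, span ℝ (e '' Set.Iic k) = span ℝ (v '' Set.Iic k) := by
    intro k
    rw [span_gramSchmidtNormed, span_gramSchmidt_Iic]
  have hmono : ∀ k l : Fin (n + 1), k ≤ l → span ℝ (v '' Set.Iic k) ≤ span ℝ (v '' Set.Iic l) :=
    fun k l hkl => span_mono (Set.image_mono (Set.Iic_subset_Iic.mpr hkl))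
  have hek : ∀ k, e k ∈ span ℝ (v '' Set.Iic k) := by
    intro k
    rw [← hspan k]
    exact subset_span ⟨k, Set.mem_Iic.mpr le_rfl, rfl⟩
  -- `D` raises the degree by one
  have hDspan : ∀ k l : Fin (n + 1), k.val + 1 = l.val → ∀ x ∈ span ℝ (v '' Set.Iic k),
      D x ∈ span ℝ (v '' Set.Iic l) := by
    intro k l hkl x hx
    induction hx using Submodule.span_induction with
    | mem x hx =>
      obtain ⟨j, hj, rfl⟩ := hx
      have hj' : j.val ≤ k.val := hj
      have hlt : j.val + 1 < n + 1 := by have := l.isLt; omega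
      rw [hDv j ⟨j.val + 1, hlt⟩ rfl]
      exact subset_span ⟨_, by
        rw [Set.mem_Iic, Fin.le_def]
        simp only []
        omega, rfl⟩
    | zero => rw [map_zero]; exact zero_mem _
    | add x y _ _ hx hy => rw [map_add]; exact add_mem hx hy
    | smul c x _ hx => rw [map_smul]; exact smul_mem _ c hx
  -- orthogonality to lower spans
  have horth : ∀ k l : Fin (n + 1), k < l → ∀ x ∈ span ℝ (v '' Set.Iic k),
      inner ℝ (e l) x = 0 := by
    intro k l hkl x hx
    rw [← hspan k] at hx
    induction hx using Submodule.span_induction with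
    | mem x hx =>
      obtain ⟨j, hj, rfl⟩ := hx
      have hj' : j ≤ k := hj
      exact hon.inner_eq_zero (by
        intro h
        rw [h] at hkl
        exact absurd (lt_of_lt_of_le hkl hj') (lt_irrefl _))
    | zero => exact inner_zero_right _
    | add x y _ _ hx hy => rw [inner_add_right, hx, hy, add_zero]
    | smul c x _ hx => rw [inner_smul_right, hx, mul_zero]
  have hinner : ∀ x y : EuclideanSpace ℝ (Fin (n + 1)), inner ℝ x y = ∑ i, x i * y i := by
    intro x y
    rw [PiLp.inner_apply]
    refine Finset.sum_congr rfl fun i _ => ?_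
    simp [mul_comm]
  have hT : ∀ k l, ∑ i, μ i * (e k i * e l i) = inner ℝ (e l) (D (e k)) := by
    intro k l
    rw [hinner]
    refine Finset.sum_congr rfl fun i _ => ?_
    simp only [D, mulOp_apply]
    ring
  refine ⟨fun k i => e k i, ?_, ?_, ?_⟩
  · intro k l
    rw [← hinner]
    exact orthonormal_iff_ite.mp hon k l
  · intro k l hkl
    rw [hT k l]
    have hlt : k.val + 1 < n + 1 := by have := l.isLt; omega
    exact horth ⟨k.val + 1, hlt⟩ l (by rw [Fin.lt_def]; exact hkl) _
      (hDspan k ⟨k.val + 1, hlt⟩ rfl _ (hek k))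
  · intro k l hkl h0
    rw [hT k l] at h0
    -- then `D` preserves the span
    have hDk : D (e k) ∈ span ℝ (v '' Set.Iic k) := by
      have h1 : D (e k) ∈ span ℝ (e '' Set.Iic l) := by
        rw [hspan l]; exact hDspan k l hkl _ (hek k)
      have h2 : ∀ x ∈ span ℝ (e '' Set.Iic l), x - (inner ℝ (e l) x) • e l ∈
          span ℝ (e '' Set.Iic k) := by
        intro x hx
        induction hx using Submodule.span_induction with
        | mem x hx =>
          obtain ⟨j, hj, rfl⟩ := hx
          by_cases hjl : j = l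
          · rw [hjl, real_inner_self_eq_norm_sq, hon.1 l]
            simp
          · have hj' : j.val ≤ l.val := hj
            have hjl' : j.val ≠ l.val := fun h => hjl (Fin.ext h)
            rw [hon.inner_eq_zero (fun h => hjl h.symm), zero_smul, sub_zero]
            exact subset_span ⟨j, by rw [Set.mem_Iic, Fin.le_def]; omega, rfl⟩
        | zero => rw [inner_zero_right, zero_smul, sub_zero]; exact zero_mem _
        | add x y _ _ hx hy =>
          rw [inner_add_right, add_smul]
          have : x + y - ((inner ℝ (e l) x) • e l + (inner ℝ (e l) y) • e l)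
              = (x - (inner ℝ (e l) x) • e l) + (y - (inner ℝ (e l) y) • e l) := by abel
          rw [this]
          exact add_mem hx hy
        | smul c x _ hx =>
          rw [inner_smul_right, mul_smul, ← smul_sub]
          exact smul_mem _ c hx
      have h3 := h2 _ h1
      rw [h0, zero_smul, sub_zero, hspan k] at h3
      exact h3
    have hinv : ∀ x ∈ span ℝ (e '' Set.Iic k), D x ∈ span ℝ (v '' Set.Iic k) := by
      intro x hx
      induction hx using Submodule.span_induction with
      | mem x hx =>
        obtain ⟨j, hj, rfl⟩ := hx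
        have hj' : j.val ≤ k.val := hj
        by_cases hjk : j = k
        · rw [hjk]; exact hDk
        · have hjk' : j.val ≠ k.val := fun h => hjk (Fin.ext h)
          have hlt : j.val + 1 < n + 1 := by have := l.isLt; omega
          exact hmono ⟨j.val + 1, hlt⟩ k (by rw [Fin.le_def]; simp only []; omega)
            (hDspan j ⟨j.val + 1, hlt⟩ rfl _ (hek j))
      | zero => rw [map_zero]; exact zero_mem _
      | add x y _ _ hx hy => rw [map_add]; exact add_mem hx hy
      | smul c x _ hx => rw [map_smul]; exact smul_mem _ c hx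
    have hvk : v k ∈ span ℝ (e '' Set.Iic k) := by
      rw [hspan k]
      exact subset_span ⟨k, Set.mem_Iic.mpr le_rfl, rfl⟩
    have hvl : v l ∈ span ℝ (v '' Set.Iic k) := by
      rw [← hDv k l hkl]
      exact hinv _ hvk
    have hnot : v l ∉ span ℝ (v '' Set.Iic k) := by
      apply hli.notMem_span_image
      intro h
      have : l.val ≤ k.val := h
      omega
    exact hnot hvl

end Pool.Agent.Lib_helper85.SSP
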