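import Pool.Agent.Lib_helper85.SSPFail
import Pool.Agent.Lib_helper85.JacobiInv

namespace Pool.Agent.Lib_helper85.SSP

open Matrix Finset

variable {n M : ℕ}

/-- block matrix on `Fin (n + 1 + M)` -/
def blockMat (T : Matrix (Fin (n + 1)) (Fin (n + 1)) ℝ) (J : Matrix (Fin M) (Fin M) ℝ)
    (B : Matrix (Fin (n + 1)) (Fin M) ℝ) : Matrix (Fin (n + 1 + M)) (Fin (n + 1 + M)) ℝ :=
  fun i j => Fin.addCases (motive := fun _ => ℝ)
    (fun i' => Fin.addCases (motive := fun _ => ℝ) (fun j' => T i' j') (fun j' => B i' j') j)
    (fun i' => Fin.addCases (motive := fun _ => ℝ) (fun j' => B j' i') (fun j' => J i' j') j) i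

@[simp] lemma blockMat_ll (T : Matrix (Fin (n + 1)) (Fin (n + 1)) ℝ) (J : Matrix (Fin M) (Fin M) ℝ)
    (B : Matrix (Fin (n + 1)) (Fin M) ℝ) (i j : Fin (n + 1)) :
    blockMat T J B (Fin.castAdd M i) (Fin.castAdd M j) = T i j := by simp [blockMat]

@[simp] lemma blockMat_lr (T : Matrix (Fin (n + 1)) (Fin (n + 1)) ℝ) (J : Matrix (Fin M) (Fin M) ℝ)
    (B : Matrix (Fin (n + 1)) (Fin M) ℝ) (i : Fin (n + 1)) (j : Fin M) :
    blockMat T J B (Fin.castAdd M i) (Fin.natAdd (n + 1) j) = B i j := by simp [blockMat]

@[simp] lemma blockMat_rl (T : Matrix (Fin (n + 1)) (Fin (n + 1)) ℝ) (J : Matrix (Fin M) (Fin M) ℝ)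
    (B : Matrix (Fin (n + 1)) (Fin M) ℝ) (i : Fin M) (j : Fin (n + 1)) :
    blockMat T J B (Fin.natAdd (n + 1) i) (Fin.castAdd M j) = B j i := by simp [blockMat]

@[simp] lemma blockMat_rr (T : Matrix (Fin (n + 1)) (Fin (n + 1)) ℝ) (J : Matrix (Fin M) (Fin M) ℝ)
    (B : Matrix (Fin (n + 1)) (Fin M) ℝ) (i j : Fin M) :
    blockMat T J B (Fin.natAdd (n + 1) i) (Fin.natAdd (n + 1) j) = J i j := by simp [blockMat]

/-- path with a loop of weight one at both ends -/
def cycJ (M : ℕ) : Matrix (Fin M) (Fin M) ℝ := fun i j =>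
  (if i.val + 1 = j.val then 1 else 0) + (if j.val + 1 = i.val then 1 else 0) +
    (if i = j ∧ i.val = 0 then 1 else 0) + (if i = j ∧ i.val + 1 = M then 1 else 0)

/-- coupling -/
def coup (n M : ℕ) (b c : ℝ) : Matrix (Fin (n + 1)) (Fin M) ℝ := fun i j =>
  if i = Fin.last n then (if j.val = 0 then b else 0) + (if j.val + 1 = M then c else 0) else 0

lemma cycJ_sum (f : ℤ → ℝ) (i : Fin M) : ∑ j : Fin M, cycJ M i j * f j.val =
    (if i.val + 1 < M then f (i.val + 1) else f i.val) +
      (if i.val = 0 then f i.val else f (i.val - 1)) := by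
  have hi := i.isLt
  simp only [cycJ, add_mul, Finset.sum_add_distrib]
  have e1 : ∑ j : Fin M, (if i.val + 1 = j.val then (1 : ℝ) else 0) * f j.val
      = if i.val + 1 < M then f (i.val + 1) else 0 := by
    by_cases h : i.val + 1 < M
    · rw [if_pos h, Finset.sum_eq_single (⟨i.val + 1, h⟩ : Fin M)]
      · simp
      · intro j _ hj
        rw [if_neg (fun h' => hj (Fin.ext h'.symm))]; ring
      · intro h'; exact absurd (Finset.mem_univ _) h'
    · rw [if_neg h]
      refine Finset.sum_eq_zero fun j _ => ?_
      have := j.isLt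
      rw [if_neg (by omega)]; ring
  have e2 : ∑ j : Fin M, (if j.val + 1 = i.val then (1 : ℝ) else 0) * f j.val
      = if i.val = 0 then 0 else f (i.val - 1) := by
    by_cases h : i.val = 0
    · rw [if_pos h]
      refine Finset.sum_eq_zero fun j _ => ?_
      rw [if_neg (by omega)]; ring
    · rw [if_neg h, Finset.sum_eq_single (⟨i.val - 1, by omega⟩ : Fin M)]
      · rw [if_pos (by simp only []; omega), one_mul]
        congr 1
        simp only []
        omega
      · intro j _ hj
        rw [if_neg (fun h' => hj (Fin.ext (by simp only []; omega)))]; ring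
      · intro h'; exact absurd (Finset.mem_univ _) h'
  have e3 : ∑ j : Fin M, (if i = j ∧ i.val = 0 then (1 : ℝ) else 0) * f j.val
      = if i.val = 0 then f i.val else 0 := by
    rw [Finset.sum_eq_single i]
    · by_cases h : i.val = 0
      · simp [h]
      · simp [h]
    · intro j _ hj
      rw [if_neg (fun h' => hj h'.1.symm)]; ring
    · intro h'; exact absurd (Finset.mem_univ _) h'
  have e4 : ∑ j : Fin M, (if i = j ∧ i.val + 1 = M then (1 : ℝ) else 0) * f j.val
      = if i.val + 1 < M then 0 else f i.val := by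
    rw [Finset.sum_eq_single i]
    · by_cases h : i.val + 1 < M
      · rw [if_pos h, if_neg (by omega)]; ring
      · rw [if_neg h, if_pos ⟨rfl, by omega⟩]; ring
    · intro j _ hj
      rw [if_neg (fun h' => hj h'.1.symm)]; ring
    · intro h'; exact absurd (Finset.mem_univ _) h'
  rw [e1, e2, e3, e4]
  split_ifs <;> ring

lemma cycJ_eig (f : ℤ → ℝ) (μ κ : ℝ) (h : ∀ j : ℤ, f (j - 1) + f (j + 1) = μ * f j)
    (h0 : f 0 - f (-1) = κ) (h1 : f ((M : ℤ) - 1) - f M = -κ) (i : Fin M) :
    ∑ j : Fin M, cycJ M i j * f j.val =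
      μ * f i.val + ((if i.val = 0 then κ else 0) - (if i.val + 1 = M then κ else 0)) := by
  rw [cycJ_sum, ← h]
  have hi := i.isLt
  by_cases ha : i.val = 0
  · rw [if_pos ha, if_pos ha]
    have ha' : ((i.val : ℕ) : ℤ) = 0 := by omega
    by_cases hb : i.val + 1 < M
    · rw [if_pos hb, if_neg (by omega), ha']
      rw [← h0]; ring_nf
    · rw [if_neg hb, if_pos (by omega), ha']
      have hM : (M : ℤ) = 1 := by omega
      rw [hM] at h1
      norm_num at h1 ⊢
      linarith
  · rw [if_neg ha, if_neg ha]
    by_cases hb : i.val + 1 < M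
    · rw [if_pos hb, if_neg (by omega)]
      ring
    · rw [if_neg hb, if_pos (by omega)]
      have hM : ((i.val : ℕ) : ℤ) = (M : ℤ) - 1 := by omega
      rw [hM]
      have : (M : ℤ) - 1 + 1 = M := by ring
      rw [this]
      linarith

lemma coup_sum (b c : ℝ) (hM : 0 < M) (f : ℤ → ℝ) (i : Fin (n + 1)) :
    ∑ j : Fin M, coup n M b c i j * f j.val =
      if i = Fin.last n then b * f 0 + c * f ((M : ℤ) - 1) else 0 := by
  by_cases hi : i = Fin.last n
  · rw [if_pos hi]
    simp only [coup, if_pos hi, add_mul, Finset.sum_add_distrib]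
    congr 1
    · rw [Finset.sum_eq_single (⟨0, hM⟩ : Fin M)]
      · simp
      · intro j _ hj
        rw [if_neg (fun h' => hj (Fin.ext h'))]; ring
      · intro h'; exact absurd (Finset.mem_univ _) h'
    · rw [Finset.sum_eq_single (⟨M - 1, by omega⟩ : Fin M)]
      · rw [if_pos (by simp only []; omega)]
        congr 2
        simp only []
        omega
      · intro j _ hj
        rw [if_neg (fun h' => hj (Fin.ext (by simp only []; omega)))]; ring
      · intro h'; exact absurd (Finset.mem_univ _) h'
  · rw [if_neg hi]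
    refine Finset.sum_eq_zero fun j _ => ?_
    simp [coup, hi]

lemma coup_sum' (b c : ℝ) (q : Fin (n + 1) → ℝ) (j : Fin M) :
    ∑ i, coup n M b c i j * q i =
      ((if j.val = 0 then b else 0) + (if j.val + 1 = M then c else 0)) * q (Fin.last n) := by
  rw [Finset.sum_eq_single (Fin.last n)]
  · simp [coup]
  · intro i _ hi
    simp [coup, hi]
  · intro h'; exact absurd (Finset.mem_univ _) h'

lemma block_eig (T : Matrix (Fin (n + 1)) (Fin (n + 1)) ℝ) (J : Matrix (Fin M) (Fin M) ℝ)
    (B : Matrix (Fin (n + 1)) (Fin M) ℝ) (q : Fin (n + 1) → ℝ) (s : Fin M → ℝ) (μ : ℝ)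
    (h1 : ∀ i, ∑ k, T i k * q k + ∑ k, B i k * s k = μ * q i)
    (h2 : ∀ i, ∑ k, B k i * q k + ∑ k, J i k * s k = μ * s i) :
    blockMat T J B *ᵥ (Fin.append q s) = μ • Fin.append q s := by
  ext i
  simp only [Matrix.mulVec, dotProduct, Pi.smul_apply, smul_eq_mul]
  rw [Fin.sum_univ_add]
  refine Fin.addCases (fun i => ?_) (fun i => ?_) i
  · simp only [blockMat_ll, blockMat_lr, Fin.append_left, Fin.append_right]
    exact h1 i
  · simp only [blockMat_rl, blockMat_rr, Fin.append_left, Fin.append_right]
    exact h2 i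

lemma cycJ_symm (i j : Fin M) : cycJ M i j = cycJ M j i := by
  simp only [cycJ]
  by_cases h : i = j
  · subst h; ring
  · have h' : ¬ j = i := fun h'' => h h''.symm
    simp [h, h']; ring

lemma blockMat_symm {T : Matrix (Fin (n + 1)) (Fin (n + 1)) ℝ} {J : Matrix (Fin M) (Fin M) ℝ}
    (B : Matrix (Fin (n + 1)) (Fin M) ℝ) (hT : ∀ i j, T i j = T j i) (hJ : ∀ i j, J i j = J j i)
    (i j : Fin (n + 1 + M)) : blockMat T J B i j = blockMat T J B j i := by
  refine Fin.addCases (fun i => ?_) (fun i => ?_) i
  · refine Fin.addCases (fun j => ?_) (fun j => ?_) j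
    · rw [blockMat_ll, blockMat_ll, hT]
    · rw [blockMat_lr, blockMat_rl]
  · refine Fin.addCases (fun j => ?_) (fun j => ?_) j
    · rw [blockMat_lr, blockMat_rl]
    · rw [blockMat_rr, blockMat_rr, hJ]

lemma block_pat {T : Matrix (Fin (n + 1)) (Fin (n + 1)) ℝ} (hT : ∀ i j, T i j = T j i)
    (hT1 : ∀ i j : Fin (n + 1), i.val + 1 < j.val → T i j = 0)
    (hT2 : ∀ i j : Fin (n + 1), i.val + 1 = j.val → T i j ≠ 0) (hM : 2 ≤ M) {b : ℝ} (hb : b ≠ 0) :
    LinePat (Fin.castAdd M (Fin.last n)) (Fin.natAdd (n + 1) ⟨M - 1, by omega⟩)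
      (blockMat T (cycJ M) (coup n M b b)) := by
  refine ⟨blockMat_symm _ hT cycJ_symm, ?_, ?_, ?_⟩
  · intro i j
    refine Fin.addCases (fun i => ?_) (fun i => ?_) i
    · refine Fin.addCases (fun j => ?_) (fun j => ?_) j
      · intro h
        rw [blockMat_ll]
        exact hT2 i j h
      · intro h
        simp only [Fin.val_castAdd, Fin.val_natAdd] at h
        have hi := i.isLt
        have hi' : i = Fin.last n := Fin.ext (by rw [Fin.val_last]; omega)
        rw [blockMat_lr, coup, if_pos hi', if_pos (by omega), if_neg (by omega)]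
        simpa using hb
    · refine Fin.addCases (fun j => ?_) (fun j => ?_) j
      · intro h
        simp only [Fin.val_castAdd, Fin.val_natAdd] at h
        have hj := j.isLt
        omega
      · intro h
        simp only [Fin.val_natAdd] at h
        have hne : i ≠ j := by intro h'; rw [h'] at h; omega
        rw [blockMat_rr, cycJ, if_pos (by omega), if_neg (by omega), if_neg (by tauto),
          if_neg (by tauto)]
        norm_num
  · rw [blockMat_lr, coup, if_pos rfl, if_neg (by simp only []; omega),
      if_pos (by simp only []; omega)]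
    simpa using hb
  · intro i j
    refine Fin.addCases (fun i => ?_) (fun i => ?_) i
    · refine Fin.addCases (fun j => ?_) (fun j => ?_) j
      · intro h _
        rw [blockMat_ll]
        exact hT1 i j h
      · intro h hn
        simp only [Fin.val_castAdd, Fin.val_natAdd] at h
        rw [blockMat_lr, coup]
        by_cases hi : i = Fin.last n
        · subst hi
          have hj := j.isLt
          rw [if_pos rfl, if_neg (by rw [Fin.val_last] at h; omega), if_neg (by
            intro h'
            apply hn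
            refine ⟨rfl, ?_⟩
            congr 1
            apply Fin.ext
            simp only []
            omega)]
          ring
        · rw [if_neg hi]
    · refine Fin.addCases (fun j => ?_) (fun j => ?_) j
      · intro h
        simp only [Fin.val_castAdd, Fin.val_natAdd] at h
        have hj := j.isLt
        omega
      · intro h _
        simp only [Fin.val_natAdd] at h
        have hne : i ≠ j := by intro h'; rw [h'] at h; omega
        rw [blockMat_rr, cycJ, if_neg (by omega), if_neg (by omega), if_neg (by tauto),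
          if_neg (by tauto)]
        norm_num

lemma block_minus (T : Matrix (Fin (n + 1)) (Fin (n + 1)) ℝ) (hM : 2 ≤ M) (b : ℝ) :
    minus (Fin.castAdd M (Fin.last n)) (Fin.natAdd (n + 1) ⟨M - 1, by omega⟩)
      (blockMat T (cycJ M) (coup n M b b)) = blockMat T (cycJ M) (coup n M b (-b)) := by
  have hval : blockMat T (cycJ M) (coup n M b b) (Fin.castAdd M (Fin.last n))
      (Fin.natAdd (n + 1) ⟨M - 1, by omega⟩) = b := by
    rw [blockMat_lr, coup, if_pos rfl, if_neg (by simp only []; omega),
      if_pos (by simp only []; omega)]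
    ring
  have hcr : ∀ (i : Fin (n + 1)) (j : Fin M), Fin.castAdd M i ≠ Fin.natAdd (n + 1) j := by
    intro i j h
    have := congrArg Fin.val h
    simp only [Fin.val_castAdd, Fin.val_natAdd] at this
    have := i.isLt
    omega
  have hcoup : ∀ (i : Fin (n + 1)) (j : Fin M), coup n M b b i j -
      2 * (if i = Fin.last n ∧ j.val + 1 = M then b else 0) = coup n M b (-b) i j := by
    intro i j
    simp only [coup]
    by_cases hi : i = Fin.last n
    · by_cases hj : j.val + 1 = M
      · simp only [hi, hj, if_true, and_self]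
        ring
      · simp [hi, hj]
    · simp [hi]
  ext i j
  simp only [minus, triPart, Matrix.sub_apply, hval, chord]
  refine Fin.addCases (fun i => ?_) (fun i => ?_) i
  · refine Fin.addCases (fun j => ?_) (fun j => ?_) j
    · rw [if_neg (by
        rintro (⟨_, h⟩ | ⟨h, _⟩)
        · exact hcr _ _ h
        · exact hcr _ _ h), blockMat_ll, blockMat_ll]
      ring
    · rw [blockMat_lr, blockMat_lr, ← hcoup i j]
      by_cases h : i = Fin.last n ∧ j.val + 1 = M
      · rw [if_pos h, if_pos]
        · ring
        · left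
          refine ⟨by rw [h.1], ?_⟩
          congr 1
          apply Fin.ext
          simp only []
          omega
      · rw [if_neg h, if_neg]
        · ring
        · rintro (⟨h1, h2⟩ | ⟨h1, _⟩)
          · apply h
            refine ⟨Fin.castAdd_injective _ _ h1, ?_⟩
            have := congrArg Fin.val h2
            simp only [Fin.val_natAdd] at this
            omega
          · exact hcr _ _ h1
  · refine Fin.addCases (fun j => ?_) (fun j => ?_) j
    · rw [blockMat_rl, blockMat_rl, ← hcoup j i]
      by_cases h : j = Fin.last n ∧ i.val + 1 = M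
      · rw [if_pos h, if_pos]
        · ring
        · right
          refine ⟨?_, by rw [h.1]⟩
          congr 1
          apply Fin.ext
          simp only []
          omega
      · rw [if_neg h, if_neg]
        · ring
        · rintro (⟨h1, h2⟩ | ⟨h1, h2⟩)
          · exact hcr _ _ h2
          · apply h
            refine ⟨Fin.castAdd_injective _ _ h2, ?_⟩
            have := congrArg Fin.val h1
            simp only [Fin.val_natAdd] at this
            omega
    · rw [if_neg (by
        rintro (⟨h, _⟩ | ⟨_, h⟩)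
        · exact hcr _ _ h.symm
        · exact hcr _ _ h.symm), blockMat_rr, blockMat_rr]
      ring

end Pool.Agent.Lib_helper85.SSP
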