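import Mathlib

namespace Pool.Agent.Lib_helper85.SSP

open Matrix

/-- The set `S(G)`: real symmetric matrices whose off-diagonal entries are nonzero exactly on the
edges of `G`; the diagonal is unrestricted. -/
def SMat {V : Type} (G : SimpleGraph V) : Set (Matrix V V ℝ) :=
  {A | A.IsSymm ∧ ∀ i j, i ≠ j → (A i j ≠ 0 ↔ G.Adj i j)}

/-- The strong spectral property of a real symmetric matrix: the only real symmetric `X` with
`A ∘ X = 0`, `I ∘ X = 0` (entrywise products) and `A X - X A = 0` is `X = 0`. -/
def HasSSP {V : Type} [Fintype V] [DecidableEq V] (A : Matrix V V ℝ) : Prop :=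
  ∀ X : Matrix V V ℝ, X.IsSymm → A ⊙ X = 0 → (1 : Matrix V V ℝ) ⊙ X = 0 →
    A * X - X * A = 0 → X = 0

/-- `G` belongs to the class `G^SSP`: every matrix in `S(G)` has the strong spectral property. -/
def InGSSP {V : Type} [Fintype V] [DecidableEq V] (G : SimpleGraph V) : Prop :=
  ∀ A ∈ SMat G, HasSSP A

/-- `G` is unicyclic: connected, and it contains exactly one cycle, that is, exactly one set of
edges is the edge set of a cycle of `G`. -/
def IsUnicyclic {V : Type} (G : SimpleGraph V) : Prop :=
  G.Connected ∧ ∃! s : Set (Sym2 V), ∃ (v : V) (c : G.Walk v v), c.IsCycle ∧ {e | e ∈ c.edges} = s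

/-- The tadpole graph `T_{m,n}`: the cycle `C_m` (on the vertices `inl i`) and the path `P_n` (on
the vertices `inr j`) together with one edge joining the cycle vertex `inl 0` to the end vertex
`inr 0` of the path. -/
def tadpole (m n : ℕ) : SimpleGraph (Fin m ⊕ Fin n) where
  Adj
    | Sum.inl i, Sum.inl j => (SimpleGraph.cycleGraph m).Adj i j
    | Sum.inr i, Sum.inr j => (SimpleGraph.pathGraph n).Adj i j
    | Sum.inl i, Sum.inr j => i.val = 0 ∧ j.val = 0
    | Sum.inr j, Sum.inl i => i.val = 0 ∧ j.val = 0
  symm := ⟨by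
    rintro (i | i) (j | j) h
    · exact h.symm
    · exact h
    · exact h
    · exact h.symm⟩
  loopless := ⟨by
    rintro (i | i) h
    · exact (SimpleGraph.cycleGraph m).loopless.irrefl i h
    · exact (SimpleGraph.pathGraph n).loopless.irrefl i h⟩

end Pool.Agent.Lib_helper85.SSP
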