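import Pool.Agent.Lib_helper85.SSPConstr

namespace Pool.Agent.Lib_helper85.SSP

open Matrix Finset

/-- For `M ≥ 2 n + 3` there is a matrix with the pattern of `T_{M+1,n}` without the strong
spectral property. -/
theorem exists_fail (n M : ℕ) (hM : 2 * n + 3 ≤ M) :
    ∃ A : Matrix (Fin (n + 1 + M)) (Fin (n + 1 + M)) ℝ,
      LinePat (Fin.castAdd M (Fin.last n)) (Fin.natAdd (n + 1) ⟨M - 1, by omega⟩) A ∧
      ∃ X : Matrix (Fin (n + 1 + M)) (Fin (n + 1 + M)) ℝ, X ≠ 0 ∧ (∀ i j, X i j = X j i) ∧
        NearZero X ∧ X (Fin.castAdd M (Fin.last n)) (Fin.natAdd (n + 1) ⟨M - 1, by omega⟩) = 0 ∧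
        A * X = X * A := by
  classical
  have hM0 : (0 : ℝ) < M := by exact_mod_cast (by omega : 0 < M)
  have hM0' : (M : ℝ) ≠ 0 := hM0.ne'
  -- the angles
  set θ : Fin (n + 1) → ℝ := fun i => 2 * Real.pi * (i.val + 1) / M with hθ
  have hθM : ∀ i, θ i * M = (i.val + 1 : ℕ) * (2 * Real.pi) := by
    intro i
    simp only [hθ]
    field_simp
    push_cast
    ring
  have hθ0 : ∀ i, 0 < θ i := fun i => by simp only [hθ]; positivity
  have hθπ : ∀ i, θ i < Real.pi := by
    intro i
    simp only [hθ]
    rw [div_lt_iff₀ hM0]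
    have h1 : (i.val : ℝ) + 1 ≤ n + 1 := by
      have := i.isLt
      exact_mod_cast (by omega : i.val + 1 ≤ n + 1)
    have h2 : 2 * ((n : ℝ) + 1) + 1 ≤ M := by exact_mod_cast (by omega : 2 * (n + 1) + 1 ≤ M)
    have h3 : 2 * ((i.val : ℝ) + 1) < M := by linarith
    nlinarith [Real.pi_pos]
  have hθinj : Function.Injective θ := by
    intro i j hij
    simp only [hθ] at hij
    field_simp at hij
    have : (i.val : ℝ) = j.val := by linarith
    exact Fin.ext (by exact_mod_cast this)
  set μ : Fin (n + 1) → ℝ := fun i => 2 * Real.cos (θ i) with hμdef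
  have hμinj : Function.Injective μ := by
    intro i j hij
    simp only [hμdef] at hij
    apply hθinj
    exact Real.injOn_cos ⟨(hθ0 i).le, (hθπ i).le⟩ ⟨(hθ0 j).le, (hθπ j).le⟩ (by linarith)
  have hμ2 : ∀ i, μ i < 2 := by
    intro i
    simp only [hμdef]
    have : Real.cos (θ i) < Real.cos 0 :=
      Real.cos_lt_cos_of_nonneg_of_le_pi le_rfl (hθπ i).le (hθ0 i)
    rw [Real.cos_zero] at this
    linarith
  obtain ⟨e, he1, he2, he3⟩ := exists_jacobi n μ hμinj
  -- columns are orthonormal too
  have hcol : ∀ i j, ∑ k, e k i * e k j = if i = j then 1 else 0 := by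
    intro i j
    set E : Matrix (Fin (n + 1)) (Fin (n + 1)) ℝ := Matrix.of e with hE
    have h1 : E * Eᵀ = 1 := by
      ext k l
      rw [Matrix.mul_apply]
      simp only [Matrix.transpose_apply, hE, Matrix.of_apply]
      rw [he1 k l, Matrix.one_apply]
    have h2 : Eᵀ * E = 1 := mul_eq_one_comm.mp h1
    have h3 := congrFun (congrFun h2 i) j
    rw [Matrix.mul_apply, Matrix.one_apply] at h3
    simpa [hE] using h3
  -- the Jacobi matrix `T₁`
  set T1 : Matrix (Fin (n + 1)) (Fin (n + 1)) ℝ := fun k l => ∑ i, μ i * (e k i * e l i) with hT1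
  have hT1s : ∀ k l, T1 k l = T1 l k := by
    intro k l
    simp only [hT1]
    refine Finset.sum_congr rfl fun i _ => ?_
    ring
  have hT1eig : ∀ i k, ∑ l, T1 k l * e l i = μ i * e k i := by
    intro i k
    simp only [hT1, Finset.sum_mul]
    rw [Finset.sum_comm]
    have : ∀ j, ∑ l, μ j * (e k j * e l j) * e l i = μ j * e k j * (if j = i then 1 else 0) := by
      intro j
      rw [← hcol j i, Finset.mul_sum]
      refine Finset.sum_congr rfl fun l _ => ?_
      ring
    rw [Finset.sum_congr rfl fun j _ => this j]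
    simp
  -- resolvent vector
  set L := Fin.last n with hL
  set y : Fin (n + 1) → ℝ := fun k => ∑ i, e k i * e L i / (2 - μ i) with hy
  have hT1y : ∀ k, ∑ l, T1 k l * y l = 2 * y k - if k = L then 1 else 0 := by
    intro k
    have h1 : ∑ l, T1 k l * y l = ∑ i, (∑ l, T1 k l * e l i) * (e L i / (2 - μ i)) := by
      simp only [hy, Finset.mul_sum, Finset.sum_mul]
      rw [Finset.sum_comm]
      refine Finset.sum_congr rfl fun i _ => ?_
      refine Finset.sum_congr rfl fun l _ => ?_
      ring
    rw [h1, ← he1 k L]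
    simp only [hT1eig, hy, Finset.mul_sum]
    rw [← Finset.sum_sub_distrib]
    refine Finset.sum_congr rfl fun i _ => ?_
    have : (2 : ℝ) - μ i ≠ 0 := by linarith [hμ2 i]
    field_simp
    ring
  set ρ := y L with hρ
  have hρ0 : 0 < ρ := by
    have hne : ∃ i, e L i ≠ 0 := by
      by_contra hc
      push Not at hc
      have := he1 L L
      rw [if_pos rfl] at this
      simp [hc] at this
    obtain ⟨i, hi⟩ := hne
    simp only [hρ, hy]
    refine Finset.sum_pos' (fun j _ => ?_) ⟨i, Finset.mem_univ _, ?_⟩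
    · exact div_nonneg (mul_self_nonneg _) (by linarith [hμ2 j])
    · exact div_pos (mul_self_pos.mpr hi) (by linarith [hμ2 i])
  -- the coupling constant
  set b : ℝ := 1 / Real.sqrt (M * ρ) with hb
  have hMρ : 0 < M * ρ := mul_pos hM0 hρ0
  have hb0 : b ≠ 0 := by
    rw [hb]
    exact one_div_ne_zero (Real.sqrt_pos.mpr hMρ).ne'
  have hb2 : b * b * (M * ρ) = 1 := by
    rw [hb, div_mul_div_comm, Real.mul_self_sqrt hMρ.le]
    field_simp
  set T : Matrix (Fin (n + 1)) (Fin (n + 1)) ℝ := fun k l =>
    T1 k l + if k = L ∧ l = L then b * b else 0 with hT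
  have hTsum : ∀ (q : Fin (n + 1) → ℝ) k, ∑ l, T k l * q l =
      ∑ l, T1 k l * q l + if k = L then b * b * q L else 0 := by
    intro q k
    simp only [hT, add_mul, Finset.sum_add_distrib]
    congr 1
    by_cases hk : k = L
    · simp [hk]
    · simp [hk]
  have hTs : ∀ k l, T k l = T l k := by
    intro k l
    simp only [hT]
    rw [hT1s k l]
    congr 1
    by_cases h : k = L ∧ l = L
    · rw [if_pos h, if_pos ⟨h.2, h.1⟩]
    · rw [if_neg h, if_neg (fun h' => h ⟨h'.2, h'.1⟩)]
  have hTne : ∀ k l : Fin (n + 1), k.val < l.val → T k l = T1 k l := by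
    intro k l hkl
    simp only [hT]
    rw [if_neg, add_zero]
    rintro ⟨rfl, rfl⟩
    omega
  have hpat := block_pat (M := M) (T := T) hTs
    (fun i j h => by rw [hTne i j (by omega)]; exact he2 i j h)
    (fun i j h => by rw [hTne i j (by omega)]; exact he3 i j h) (by omega) hb0
  refine ⟨_, hpat, ?_⟩
  -- trigonometric solutions
  set fc : Fin (n + 1) → ℤ → ℝ := fun i j => Real.cos ((j + 1 / 2) * θ i) with hfc
  set fs : Fin (n + 1) → ℤ → ℝ := fun i j => Real.sin ((j + 1 / 2) * θ i) with hfs
  have hfcr : ∀ i j, fc i (j - 1) + fc i (j + 1) = μ i * fc i j := by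
    intro i j
    simp only [hfc, hμdef]
    push_cast
    have e1 : ((j : ℝ) - 1 + 1 / 2) * θ i = (j + 1 / 2) * θ i - θ i := by ring
    have e2 : ((j : ℝ) + 1 + 1 / 2) * θ i = (j + 1 / 2) * θ i + θ i := by ring
    rw [e1, e2, Real.cos_sub, Real.cos_add]
    ring
  have hfsr : ∀ i j, fs i (j - 1) + fs i (j + 1) = μ i * fs i j := by
    intro i j
    simp only [hfs, hμdef]
    push_cast
    have e1 : ((j : ℝ) - 1 + 1 / 2) * θ i = (j + 1 / 2) * θ i - θ i := by ring
    have e2 : ((j : ℝ) + 1 + 1 / 2) * θ i = (j + 1 / 2) * θ i + θ i := by ring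
    rw [e1, e2, Real.sin_sub, Real.sin_add]
    ring
  have hfc0 : ∀ i, fc i 0 = Real.cos (θ i / 2) := by
    intro i; simp only [hfc]; congr 1; push_cast; ring
  have hfcm : ∀ i, fc i (-1) = Real.cos (θ i / 2) := by
    intro i; simp only [hfc]; rw [← Real.cos_neg]; congr 1; push_cast; ring
  have hfcM1 : ∀ i, fc i ((M : ℤ) - 1) = Real.cos (θ i / 2) := by
    intro i
    simp only [hfc]
    have : (((M : ℤ) - 1 : ℤ) + 1 / 2 : ℝ) * θ i = (i.val + 1 : ℕ) * (2 * Real.pi) - θ i / 2 := by
      rw [← hθM i]; push_cast; ring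
    rw [this, Real.cos_nat_mul_two_pi_sub]
  have hfcM : ∀ i, fc i M = Real.cos (θ i / 2) := by
    intro i
    simp only [hfc]
    have : (((M : ℤ) : ℝ) + 1 / 2 : ℝ) * θ i = θ i / 2 + (i.val + 1 : ℕ) * (2 * Real.pi) := by
      rw [← hθM i]; push_cast; ring
    rw [this, Real.cos_add_nat_mul_two_pi]
  have hfs0 : ∀ i, fs i 0 = Real.sin (θ i / 2) := by
    intro i; simp only [hfs]; congr 1; push_cast; ring
  have hfsm : ∀ i, fs i (-1) = -Real.sin (θ i / 2) := by
    intro i; simp only [hfs]; rw [← Real.sin_neg]; congr 1; push_cast; ring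
  have hfsM1 : ∀ i, fs i ((M : ℤ) - 1) = -Real.sin (θ i / 2) := by
    intro i
    simp only [hfs]
    have : (((M : ℤ) - 1 : ℤ) + 1 / 2 : ℝ) * θ i = (i.val + 1 : ℕ) * (2 * Real.pi) - θ i / 2 := by
      rw [← hθM i]; push_cast; ring
    rw [this, Real.sin_nat_mul_two_pi_sub]
  have hfsM : ∀ i, fs i M = Real.sin (θ i / 2) := by
    intro i
    simp only [hfs]
    have : (((M : ℤ) : ℝ) + 1 / 2 : ℝ) * θ i = θ i / 2 + (i.val + 1 : ℕ) * (2 * Real.pi) := by
      rw [← hθM i]; push_cast; ring
    rw [this, Real.sin_add_nat_mul_two_pi]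
  have hsin : ∀ i, 0 < Real.sin (θ i / 2) := fun i =>
    Real.sin_pos_of_pos_of_lt_pi (by linarith [hθ0 i]) (by linarith [hθπ i, Real.pi_pos])
  have hcos : ∀ i, 0 < Real.cos (θ i / 2) := fun i =>
    Real.cos_pos_of_mem_Ioo ⟨by linarith [hθ0 i, Real.pi_pos], by linarith [hθπ i]⟩
  -- general facts for the eigenvector equations
  have hMpos : 0 < M := by omega
  have hrow2 : ∀ (q : Fin (n + 1) → ℝ) (f : ℤ → ℝ) (m κ : ℝ), κ ≠ 0 →
      (∀ j : ℤ, f (j - 1) + f (j + 1) = m * f j) → f 0 - f (-1) = κ → f ((M : ℤ) - 1) - f M = -κ →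
      ∀ i : Fin M, ∑ k, coup n M b (-b) k i * q k +
        ∑ k : Fin M, cycJ M i k * (-(b * q L / κ) * f k.val) =
        m * (-(b * q L / κ) * f i.val) := by
    intro q f m κ hκ h1 h2 h3 i
    have e1 : ∑ k : Fin M, cycJ M i k * (-(b * q L / κ) * f k.val) =
        -(b * q L / κ) * ∑ k : Fin M, cycJ M i k * f k.val := by
      rw [Finset.mul_sum]
      refine Finset.sum_congr rfl fun k _ => ?_
      ring
    rw [e1, cycJ_eig f m κ h1 h2 h3 i, coup_sum']
    by_cases ha : i.val = 0
    · by_cases hc : i.val + 1 = M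
      · omega
      · rw [if_pos ha, if_neg hc, if_pos ha, if_neg hc]
        field_simp
        ring
    · by_cases hc : i.val + 1 = M
      · rw [if_neg ha, if_pos hc, if_neg ha, if_pos hc]
        field_simp
        ring
      · rw [if_neg ha, if_neg hc, if_neg ha, if_neg hc]
        ring
  have hrow1 : ∀ (q : Fin (n + 1) → ℝ) (f : ℤ → ℝ) (κ : ℝ) (k : Fin (n + 1)),
      ∑ l, T k l * q l + ∑ j : Fin M, coup n M b (-b) k j * (-(b * q L / κ) * f j.val) =
      ∑ l, T1 k l * q l + if k = L then b * b * q L -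
        b * b * q L / κ * (f 0 - f ((M : ℤ) - 1)) else 0 := by
    intro q f κ k
    have e1 := coup_sum (n := n) b (-b) hMpos (fun j => -(b * q L / κ) * f j) k
    rw [e1, hTsum]
    by_cases hk : k = L
    · rw [if_pos hk, if_pos hk, if_pos hk]
      ring
    · rw [if_neg hk, if_neg hk, if_neg hk]
      ring
  -- the eigenvectors
  set Φ : Option (Fin (n + 1)) → Fin (n + 1 + M) → ℝ := fun o => match o with
    | none => Fin.append y (fun j : Fin M => -(b * y L / 1) * ((j.val : ℤ) - ((M : ℝ) - 1) / 2))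
    | some i => Fin.append (fun k => e k i)
        (fun j : Fin M => -(b * e L i / (2 * Real.sin (θ i / 2))) * fs i j.val) with hΦ
  set Ψ : Option (Fin (n + 1)) → Fin (n + 1 + M) → ℝ := fun o => match o with
    | none => Fin.append (fun _ => 0) (fun _ : Fin M => 1)
    | some i => Fin.append (fun _ => 0) (fun j : Fin M => fc i j.val) with hΨ
  set μ' : Option (Fin (n + 1)) → ℝ := fun o => match o with
    | none => 2
    | some i => μ i with hμ'
  have hl : ∀ i : Fin (n + 1 + M), i ≤ Fin.natAdd (n + 1) (⟨M - 1, by omega⟩ : Fin M) := by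
    intro i
    rw [Fin.le_def]
    have := i.isLt
    simp only [Fin.val_natAdd]
    omega
  have hLv : L.val = n := rfl
  refine line_fail hpat hl (by simp only [Fin.val_castAdd, Fin.val_natAdd]; omega)
    (ι := Option (Fin (n + 1))) ?_ μ' ?_ Φ Ψ ?_ ?_ ?_ ?_ ?_
  · simp only [Fin.val_castAdd, Fintype.card_option, Fintype.card_fin]
    omega
  · rintro (_ | i) (_ | j) h
    · rfl
    · exact absurd h (hμ2 j).ne'
    · exact absurd h (hμ2 i).ne
    · rw [hμinj h]
  · -- φ is an eigenvector
    rw [block_minus T (by omega) b]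
    rintro (_ | i)
    · refine block_eig _ _ _ _ _ _ ?_ ?_
      · intro k
        have := hrow1 y (fun j => (j : ℝ) - ((M : ℝ) - 1) / 2) 1 k
        push_cast at this ⊢
        rw [this, hT1y k]
        by_cases hk : k = L
        · rw [if_pos hk, if_pos hk, hk]
          simp only [hμ']
          have h3 : b * b * (M * y L) = 1 := hb2
          linear_combination h3
        · rw [if_neg hk, if_neg hk]
          simp only [hμ']
          ring
      · intro j
        have := hrow2 y (fun j => (j : ℝ) - ((M : ℝ) - 1) / 2) 2 1 one_ne_zero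
          (by intro j; push_cast; ring) (by push_cast; ring) (by push_cast; ring) j
        push_cast at this ⊢
        exact this
    · refine block_eig _ _ _ _ _ _ ?_ ?_
      · intro k
        have hs := (hsin i).ne'
        rw [hrow1 (fun k => e k i) (fs i) (2 * Real.sin (θ i / 2)) k, hT1eig, hfs0, hfsM1]
        by_cases hk : k = L
        · rw [if_pos hk]
          simp only [hμ']
          field_simp
          ring
        · rw [if_neg hk, add_zero]
      · intro j
        have hs := (hsin i).ne'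
        exact hrow2 (fun k => e k i) (fs i) (μ i) (2 * Real.sin (θ i / 2)) (by positivity)
          (hfsr i) (by rw [hfs0, hfsm]; ring) (by rw [hfsM1, hfsM]; ring) j
  · -- ψ is an eigenvector
    rw [block_minus T (by omega) b]
    rintro (_ | i)
    · refine block_eig _ _ _ _ _ _ ?_ ?_
      · intro k
        have e1 := coup_sum (n := n) b (-b) hMpos (fun _ => 1) k
        rw [e1]
        simp
      · intro j
        have e1 := cycJ_eig (M := M) (fun _ => 1) 2 0 (by intro j; norm_num) (by norm_num)
          (by norm_num) j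
        rw [e1]
        simp [hμ']
    · refine block_eig _ _ _ _ _ _ ?_ ?_
      · intro k
        rw [coup_sum (n := n) b (-b) hMpos (fc i) k, hfc0, hfcM1]
        simp
      · intro j
        rw [cycJ_eig (M := M) (fc i) (μ i) 0 (hfcr i) (by rw [hfc0, hfcm]; ring)
          (by rw [hfcM1, hfcM]; ring) j]
        simp [hμ']
  · -- ψ vanishes on the tail
    intro o k hk
    have hk' : k.val ≤ n := by
      have : k.val ≤ (Fin.castAdd M (Fin.last n)).val := hk
      simpa using this
    have hkc : k = Fin.castAdd M (⟨k.val, by omega⟩ : Fin (n + 1)) := Fin.ext rfl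
    rw [hkc]
    rcases o with _ | i
    · simp only [hΨ]
      rw [Fin.append_left]
    · simp only [hΨ]
      rw [Fin.append_left]
  · rintro (_ | i) h
    · have := congrFun h (Fin.natAdd (n + 1) (⟨0, hMpos⟩ : Fin M))
      simp only [hΨ] at this
      rw [Fin.append_right] at this
      simp at this
    · have := congrFun h (Fin.natAdd (n + 1) (⟨0, hMpos⟩ : Fin M))
      simp only [hΨ] at this
      rw [Fin.append_right] at this
      have h2 := hfc0 i
      simp only [Pi.zero_apply] at this
      have h3 : fc i 0 = 0 := this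
      rw [h2] at h3
      exact absurd h3 (hcos i).ne'
  · rintro (_ | i)
    · refine ⟨Fin.castAdd M L, le_rfl, ?_⟩
      simp only [hΦ]
      rw [Fin.append_left]
      exact hρ0.ne'
    · by_contra hc
      push Not at hc
      have hz : ∀ k, e k i = 0 := by
        intro k
        have := hc (Fin.castAdd M k) (by
          rw [Fin.le_def]
          simp only [Fin.val_castAdd]
          have := k.isLt
          omega)
        simp only [hΦ] at this
        rw [Fin.append_left] at this
        exact this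
      have := hcol i i
      rw [if_pos rfl] at this
      simp [hz] at this

end Pool.Agent.Lib_helper85.SSP
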