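import Pool.Agent.Lib_helper85.SSPSuff

namespace Pool.Agent.Lib_helper85.SSP

open Matrix Finset

variable {N : ℕ}

lemma flip_flip_ne {W : Matrix (Fin N) (Fin N) ℝ} (hW : W ≠ 0) (hd : ∀ i, W i i = 0) :
    flip W ≠ 0 := by
  intro h
  apply hW
  ext i j
  rcases lt_trichotomy i j with hij | hij | hij
  · have := congrFun (congrFun h i) j
    simp only [flip, sg_lt hij, one_mul] at this
    exact this
  · subst hij; exact hd i
  · have := congrFun (congrFun h i) j
    simp only [flip, sg_gt hij, Matrix.zero_apply] at this
    simp only [Matrix.zero_apply]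
    linarith

lemma minus_symm {p l : Fin N} {A : Matrix (Fin N) (Fin N) ℝ} (hA : LinePat p l A) (i j : Fin N) :
    minus p l A i j = minus p l A j i := by
  simp only [minus, triPart, Matrix.sub_apply, chord]
  rw [hA.symm i j]
  by_cases h : (i = p ∧ j = l) ∨ (i = l ∧ j = p)
  · rw [if_pos h, if_pos (by tauto)]
  · rw [if_neg h, if_neg (by tauto)]

/-- If the sign-flipped matrix has more than `p + 1` double eigenvalues with eigenvectors as
below, then `A` does not have the strong spectral property. -/
theorem line_fail {p l : Fin N} {A : Matrix (Fin N) (Fin N) ℝ} (hA : LinePat p l A)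
    (hl : ∀ i : Fin N, i ≤ l) (hpl : p.val + 1 < l.val) {ι : Type} [Fintype ι]
    (hcard : p.val + 1 < Fintype.card ι) (μ : ι → ℝ) (hμ : Function.Injective μ)
    (φ ψ : ι → Fin N → ℝ) (hφ : ∀ i, minus p l A *ᵥ φ i = μ i • φ i)
    (hψ : ∀ i, minus p l A *ᵥ ψ i = μ i • ψ i) (hψ0 : ∀ i k, k ≤ p → ψ i k = 0)
    (hψne : ∀ i, ψ i ≠ 0) (hφne : ∀ i, ∃ k, k ≤ p ∧ φ i k ≠ 0) :
    ∃ X : Matrix (Fin N) (Fin N) ℝ, X ≠ 0 ∧ (∀ i j, X i j = X j i) ∧ NearZero X ∧ X p l = 0 ∧
      A * X = X * A := by
  classical
  have hplt : p < l := by rw [Fin.lt_def]; omega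
  have hp1 : p.val + 1 < N := by have := l.isLt; omega
  set p1 : Fin N := ⟨p.val + 1, hp1⟩ with hp1def
  have hp1v : p1.val = p.val + 1 := rfl
  -- the weights
  obtain ⟨w, hw, hw0⟩ : ∃ w : ι → ℝ, (∀ k : Fin N, k ≤ p → ∑ i, w i * (φ i k * ψ i p1) = 0) ∧
      w ≠ 0 := by
    let F : (ι → ℝ) →ₗ[ℝ] (Fin (p.val + 1) → ℝ) :=
      { toFun := fun w k => ∑ i, w i * (φ i ⟨k.val, by have := k.isLt; omega⟩ * ψ i p1)
        map_add' := by
          intro x y
          ext k
          simp only [Pi.add_apply, add_mul, Finset.sum_add_distrib]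
        map_smul' := by
          intro c x
          ext k
          simp only [Pi.smul_apply, smul_eq_mul, RingHom.id_apply, Finset.mul_sum, mul_assoc] }
    have hF : LinearMap.ker F ≠ ⊥ := LinearMap.ker_ne_bot_of_finrank_lt (by simpa using hcard)
    obtain ⟨w, hw, hw0⟩ := Submodule.exists_mem_ne_zero_of_ne_bot hF
    refine ⟨w, ?_, hw0⟩
    intro k hk
    have := congrFun (LinearMap.mem_ker.mp hw) ⟨k.val, by have : k.val ≤ p.val := hk; omega⟩
    exact this
  set B := minus p l A with hB
  have hBs : ∀ i j, B i j = B j i := minus_symm hA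
  set W : Matrix (Fin N) (Fin N) ℝ := fun a b => ∑ i, w i * (φ i a * ψ i b - ψ i a * φ i b) with hW
  have hWa : ∀ a b, W a b = - W b a := by
    intro a b
    simp only [hW]
    rw [← Finset.sum_neg_distrib]
    refine Finset.sum_congr rfl fun i _ => ?_
    ring
  have hWd : ∀ a, W a a = 0 := by
    intro a
    have := hWa a a
    linarith
  have hφ' : ∀ i a, ∑ k, B a k * φ i k = μ i * φ i a := by
    intro i a
    have := congrFun (hφ i) a
    simpa [Matrix.mulVec, dotProduct] using this
  have hψ' : ∀ i a, ∑ k, B a k * ψ i k = μ i * ψ i a := by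
    intro i a
    have := congrFun (hψ i) a
    simpa [Matrix.mulVec, dotProduct] using this
  have hBW : B * W = W * B := by
    ext a b
    rw [Matrix.mul_apply, Matrix.mul_apply]
    have e1 : ∑ k, B a k * W k b = ∑ i, w i * (μ i * (φ i a * ψ i b - ψ i a * φ i b)) := by
      simp only [hW, Finset.mul_sum]
      rw [Finset.sum_comm]
      refine Finset.sum_congr rfl fun i _ => ?_
      have : ∑ k, B a k * (w i * (φ i k * ψ i b - ψ i k * φ i b))
          = w i * ((∑ k, B a k * φ i k) * ψ i b - (∑ k, B a k * ψ i k) * φ i b) := by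
        rw [Finset.sum_mul, Finset.sum_mul, ← Finset.sum_sub_distrib, Finset.mul_sum]
        refine Finset.sum_congr rfl fun k _ => ?_
        ring
      rw [this, hφ', hψ']
      ring
    have e2 : ∑ k, W a k * B k b = ∑ i, w i * (μ i * (φ i a * ψ i b - ψ i a * φ i b)) := by
      simp only [hW, Finset.sum_mul]
      rw [Finset.sum_comm]
      refine Finset.sum_congr rfl fun i _ => ?_
      have : ∑ k, w i * (φ i a * ψ i k - ψ i a * φ i k) * B k b
          = w i * (φ i a * (∑ k, B b k * ψ i k) - ψ i a * (∑ k, B b k * φ i k)) := by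
        rw [Finset.mul_sum, Finset.mul_sum, ← Finset.sum_sub_distrib, Finset.mul_sum]
        refine Finset.sum_congr rfl fun k _ => ?_
        rw [hBs b k]
        ring
      rw [this, hφ', hψ']
      ring
    rw [e1, e2]
  -- the tail block
  have hWt : ∀ a b : Fin N, a ≤ p → b ≤ p → W a b = 0 := by
    intro a b ha hb
    simp only [hW]
    refine Finset.sum_eq_zero fun i _ => ?_
    rw [hψ0 i a ha, hψ0 i b hb]; ring
  have hWp1 : ∀ k : Fin N, k ≤ p → W k p1 = 0 := by
    intro k hk
    have := hw k hk
    simp only [hW]
    rw [← this]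
    refine Finset.sum_congr rfl fun i _ => ?_
    rw [hψ0 i k hk]; ring
  have hWne : W ≠ 0 := by
    intro h0
    apply hw0
    have hli : LinearIndependent ℝ ψ := by
      refine Module.End.eigenvectors_linearIndependent' (Matrix.toLin' B) μ hμ ψ ?_
      intro i
      refine ⟨?_, hψne i⟩
      rw [Module.End.mem_eigenspace_iff]
      rw [Matrix.toLin'_apply]
      exact hψ i
    ext i
    obtain ⟨k, hk, hne⟩ := hφne i
    have hrow : ∑ j, (w j * φ j k) • ψ j = 0 := by
      ext b
      have := congrFun (congrFun h0 k) b
      simp only [hW, Matrix.zero_apply] at this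
      simp only [Finset.sum_apply, Pi.smul_apply, smul_eq_mul, Pi.zero_apply]
      rw [← this]
      refine Finset.sum_congr rfl fun j _ => ?_
      rw [hψ0 j k hk]; ring
    have := (Fintype.linearIndependent_iff.mp hli) _ hrow i
    exact (mul_eq_zero.mp this).resolve_right hne
  have hc := fun i j => comm_entry hBW i j
  have hBz : ∀ i k : Fin N, i.val + 1 < k.val → ¬ (i = p ∧ k = l) → B i k = 0 := by
    intro i k hik h
    rw [hB, minus_apply]
    · exact hA.z i k hik h
    · rintro (h' | ⟨rfl, rfl⟩)
      · exact h h'
      · have := hl k; omega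
  have hBnz : ∀ i j : Fin N, i.val + 1 = j.val → B i j ≠ 0 := by
    intro i j hij
    rw [hB, minus_apply]
    · exact hA.nz i j hij
    · rintro (⟨rfl, rfl⟩ | ⟨rfl, rfl⟩) <;> omega
  have hBc : B p l ≠ 0 := by
    have : B p l = - A p l := by
      simp [hB, minus, triPart, chord]
    rw [this]
    exact neg_ne_zero.mpr hA.nzc
  -- the last column
  have hWpl : ∀ k : Fin N, k ≤ p → W k l = 0 := by
    intro k hk
    rcases hk.eq_or_lt with rfl | hk
    · -- diagonal entry at `p`
      have h1 := hc k k
      have e1 : ∑ i, B k i * W i k = B k l * W l k := by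
        refine Finset.sum_eq_single l ?_ (fun h => absurd (Finset.mem_univ _) h)
        intro i _ hi
        rcases le_or_gt i k with h | h
        · rw [hWt i k h le_rfl]; ring
        · by_cases h2 : i = p1
          · rw [h2, hWa, hWp1 k le_rfl]; ring
          · have h' : k.val < i.val := h
            have hne : i.val ≠ k.val + 1 := fun h'' => h2 (Fin.ext h'')
            rw [hBz k i (by omega) (by rintro ⟨_, h3⟩; exact hi h3)]; ring
      have e2 : ∑ i, W k i * B i k = W k l * B l k := by
        refine Finset.sum_eq_single l ?_ (fun h => absurd (Finset.mem_univ _) h)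
        intro i _ hi
        rcases le_or_gt i k with h | h
        · rw [hWt k i le_rfl h]; ring
        · by_cases h2 : i = p1
          · rw [h2, hWp1 k le_rfl]; ring
          · have h' : k.val < i.val := h
            have hne : i.val ≠ k.val + 1 := fun h'' => h2 (Fin.ext h'')
            rw [hBs i k, hBz k i (by omega) (by rintro ⟨_, h3⟩; exact hi h3)]; ring
      rw [e1, e2, hBs l k, hWa l k] at h1
      have h2 : B k l * W k l = 0 := by linarith
      exact (mul_eq_zero.mp h2).resolve_left hBc
    · have hk' : k.val < p.val := hk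
      have h1 := hc k p
      have e1 : ∑ i, B k i * W i p = 0 := by
        refine Finset.sum_eq_zero fun i _ => ?_
        rcases le_or_gt i p with h | h
        · rw [hWt i p h le_rfl]; ring
        · have h' : p.val < i.val := h
          rw [hBz k i (by omega) (by rintro ⟨h3, _⟩; exact absurd h3 hk.ne)]; ring
      have e2 : ∑ i, W k i * B i p = W k l * B l p := by
        refine Finset.sum_eq_single l ?_ (fun h => absurd (Finset.mem_univ _) h)
        intro i _ hi
        rcases le_or_gt i p with h | h
        · rw [hWt k i hk.le h]; ring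
        · by_cases h2 : i = p1
          · rw [h2, hWp1 k hk.le]; ring
          · have h' : p.val < i.val := h
            have hne : i.val ≠ p.val + 1 := fun h'' => h2 (Fin.ext h'')
            rw [hBs i p, hBz p i (by omega) (by rintro ⟨_, h3⟩; exact hi h3)]; ring
      rw [e1, e2] at h1
      exact (mul_eq_zero.mp h1.symm).resolve_right (by rw [hBs]; exact hBc)
  -- next-to-diagonal entries
  have hWs : ∀ t : ℕ, ∀ i j : Fin N, i.val = t → j.val = i.val + 1 → W i j = 0 := by
    intro t
    induction t with
    | zero =>
      intro i j hi hj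
      rcases Nat.eq_zero_or_pos p.val with hp | hp
      · have e1 : i = p := Fin.ext (by omega)
        have e2 : j = p1 := Fin.ext (by omega)
        rw [e1, e2]; exact hWp1 p le_rfl
      · exact hWt i j (by rw [Fin.le_def]; omega) (by rw [Fin.le_def]; omega)
    | succ t IH =>
      intro i j hi hj
      rcases lt_trichotomy i.val p.val with h | h | h
      · exact hWt i j (by rw [Fin.le_def]; omega) (by rw [Fin.le_def]; omega)
      · have e1 : i = p := Fin.ext (by omega)
        have e2 : j = p1 := Fin.ext (by omega)
        rw [e1, e2]; exact hWp1 p le_rfl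
      · have hi0 : t < N := by have := i.isLt; omega
        set i0 : Fin N := ⟨t, hi0⟩ with hi0def
        have hi0v : i0.val = t := rfl
        have hjl : j.val ≤ l.val := hl j
        have h1 := hc i i
        have hprev : W i0 i = 0 := IH i0 i rfl (by omega)
        have e1 : ∑ k, B i k * W k i = B i j * W j i := by
          refine Finset.sum_eq_single j ?_ (fun h => absurd (Finset.mem_univ _) h)
          intro k _ hk
          rcases lt_trichotomy k.val i.val with h2 | h2 | h2
          · by_cases h3 : k.val + 1 = i.val
            · have : k = i0 := Fin.ext (by omega)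
              rw [this, hprev]; ring
            · rw [hBs i k, hBz k i (by omega) (by
                rintro ⟨_, h4⟩; have := congrArg Fin.val h4; omega)]; ring
          · have : k = i := Fin.ext h2
            rw [this, hWd]; ring
          · have h3 : k.val ≠ i.val + 1 := fun h4 => hk (Fin.ext (by omega))
            rw [hBz i k (by omega) (by
                rintro ⟨h4, _⟩; have := congrArg Fin.val h4; omega)]; ring
        have e2 : ∑ k, W i k * B k i = W i j * B j i := by
          refine Finset.sum_eq_single j ?_ (fun h => absurd (Finset.mem_univ _) h)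
          intro k _ hk
          rcases lt_trichotomy k.val i.val with h2 | h2 | h2
          · by_cases h3 : k.val + 1 = i.val
            · have : k = i0 := Fin.ext (by omega)
              rw [this, hWa, hprev]; ring
            · rw [hBz k i (by omega) (by
                rintro ⟨_, h4⟩; have := congrArg Fin.val h4; omega)]; ring
          · have : k = i := Fin.ext h2
            rw [this, hWd]; ring
          · have h3 : k.val ≠ i.val + 1 := fun h4 => hk (Fin.ext (by omega))
            rw [hBs k i, hBz i k (by omega) (by
                rintro ⟨h4, _⟩; have := congrArg Fin.val h4; omega)]; ring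
        rw [e1, e2, hBs j i, hWa j i] at h1
        have h2 : B i j * W i j = 0 := by linarith
        exact (mul_eq_zero.mp h2).resolve_left (hBnz i j (by omega))
  have hNear : NearZero W := by
    intro i j h1 h2
    rcases lt_trichotomy i.val j.val with h | h | h
    · exact hWs i.val i j rfl (by omega)
    · have : i = j := Fin.ext h
      rw [this]; exact hWd j
    · rw [hWa, hWs j.val j i rfl (by omega), neg_zero]
  have hsupp : Supp p l W := ⟨hNear, hWt, hWpl p le_rfl, by rw [hWa, hWpl p le_rfl, neg_zero]⟩
  have hdef := comm_flip' (J := triPart p l A) (C := chord p l (A p l)) (triPart_tri hA) hNear hBW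
  rw [triPart_add, defect_eq_zero hl hplt hsupp
    (fun j hj => by rw [hWa, hWpl j hj.le, neg_zero]) (fun j hj => hWpl j hj.le)] at hdef
  refine ⟨flip W, flip_flip_ne hWne hWd, ?_, ?_, ?_, sub_eq_zero.mp hdef⟩
  · intro i j
    simp only [flip]
    rw [sg_neg j i, hWa i j]
    ring
  · intro i j h1 h2
    simp only [flip]
    rw [hNear i j h1 h2]; ring
  · simp only [flip]
    rw [hWpl p le_rfl]; ring

end Pool.Agent.Lib_helper85.SSP
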