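import Mathlib

namespace Pool.Agent.Lib_helper85.SSP

open Matrix Finset

variable {N : ℕ}

/-- sign of `j - i` -/
def sg (i j : Fin N) : ℝ := if i < j then 1 else if j < i then -1 else 0

lemma sg_lt {i j : Fin N} (h : i < j) : sg i j = 1 := by simp [sg, h]
lemma sg_gt {i j : Fin N} (h : j < i) : sg i j = -1 := by simp [sg, h, not_lt.mpr h.le]
lemma sg_self (i : Fin N) : sg i i = 0 := by simp [sg]

lemma sg_neg (i j : Fin N) : sg j i = - sg i j := by
  rcases lt_trichotomy i j with h | h | h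
  · rw [sg_lt h, sg_gt h]
  · subst h; rw [sg_self]; simp
  · rw [sg_lt h, sg_gt h]; simp

/-- entrywise product with the sign matrix -/
def flip (X : Matrix (Fin N) (Fin N) ℝ) : Matrix (Fin N) (Fin N) ℝ := fun i j => sg i j * X i j

/-- `X` vanishes on and next to the diagonal -/
def NearZero (X : Matrix (Fin N) (Fin N) ℝ) : Prop :=
  ∀ i j : Fin N, i.val ≤ j.val + 1 → j.val ≤ i.val + 1 → X i j = 0

/-- tridiagonal -/
def Tri (J : Matrix (Fin N) (Fin N) ℝ) : Prop :=
  ∀ i j : Fin N, (i.val + 1 < j.val ∨ j.val + 1 < i.val) → J i j = 0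

lemma sg_near {i j k : Fin N} (h1 : i.val ≤ k.val + 1) (h2 : k.val ≤ i.val + 1)
    (h3 : k.val + 1 < j.val ∨ j.val + 1 < k.val) (hij : i ≠ j) : sg k j = sg i j := by
  have hij' : i.val ≠ j.val := fun h => hij (Fin.ext h)
  rcases h3 with h3 | h3
  · rw [sg_lt (show k < j by rw [Fin.lt_def]; omega), sg_lt (show i < j by rw [Fin.lt_def]; omega)]
  · rw [sg_gt (show j < k by rw [Fin.lt_def]; omega), sg_gt (show j < i by rw [Fin.lt_def]; omega)]

lemma mul_flip {J X : Matrix (Fin N) (Fin N) ℝ} (hJ : Tri J) (hX : NearZero X) :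
    J * flip X = flip (J * X) := by
  ext i j
  simp only [Matrix.mul_apply, flip, Finset.mul_sum]
  refine Finset.sum_congr rfl fun k _ => ?_
  by_cases h1 : i.val + 1 < k.val ∨ k.val + 1 < i.val
  · rw [hJ i k h1]; ring
  · push Not at h1
    by_cases h2 : k.val + 1 < j.val ∨ j.val + 1 < k.val
    · by_cases hij : i = j
      · exfalso; subst hij; omega
      · rw [sg_near (by omega) (by omega) h2 hij]; ring
    · push Not at h2
      rw [hX k j (by omega) (by omega)]; ring

lemma flip_mul {J X : Matrix (Fin N) (Fin N) ℝ} (hJ : Tri J) (hX : NearZero X) :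
    flip X * J = flip (X * J) := by
  ext i j
  simp only [Matrix.mul_apply, flip, Finset.mul_sum]
  refine Finset.sum_congr rfl fun k _ => ?_
  by_cases h1 : k.val + 1 < j.val ∨ j.val + 1 < k.val
  · rw [hJ k j h1]; ring
  · push Not at h1
    by_cases h2 : k.val + 1 < i.val ∨ i.val + 1 < k.val
    · by_cases hij : i = j
      · exfalso; subst hij; omega
      · have : sg i k = sg i j := by
          rw [sg_neg k i, sg_neg j i, sg_near (i := j) (by omega) (by omega) h2 (Ne.symm hij)]
        rw [this]; ring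
    · push Not at h2
      rw [hX i k (by omega) (by omega)]; ring

/-- the chord matrix -/
def chord (p l : Fin N) (w : ℝ) : Matrix (Fin N) (Fin N) ℝ :=
  fun i j => if (i = p ∧ j = l) ∨ (i = l ∧ j = p) then w else 0

lemma chord_ne {p l i j : Fin N} {w : ℝ} (h : chord p l w i j ≠ 0) :
    (i = p ∧ j = l) ∨ (i = l ∧ j = p) := by
  by_contra hc
  exact h (by simp [chord, hc])

/-- The commutator defect of the sign flip. -/
def defect (C Z : Matrix (Fin N) (Fin N) ℝ) : Matrix (Fin N) (Fin N) ℝ :=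
  flip (C * Z - Z * C) + (C * flip Z - flip Z * C)

lemma defect_apply (C Z : Matrix (Fin N) (Fin N) ℝ) (i j : Fin N) :
    defect C Z i j = ∑ k, (C i k * ((sg i j + sg k j) * Z k j) - C k j * ((sg i j + sg i k) * Z i k)) := by
  simp only [defect, flip, Matrix.add_apply, Matrix.sub_apply, Matrix.mul_apply, mul_sub,
    Finset.mul_sum]
  rw [← Finset.sum_sub_distrib, ← Finset.sum_sub_distrib, ← Finset.sum_add_distrib]
  refine Finset.sum_congr rfl fun k _ => ?_
  ring

/-- Support hypotheses for `Z`. -/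
structure Supp (p l : Fin N) (Z : Matrix (Fin N) (Fin N) ℝ) : Prop where
  near : NearZero Z
  tail : ∀ i j : Fin N, i ≤ p → j ≤ p → Z i j = 0
  pl : Z p l = 0
  lp : Z l p = 0

lemma term1 {p l : Fin N} {w : ℝ} {Z : Matrix (Fin N) (Fin N) ℝ} (hl : ∀ i : Fin N, i ≤ l)
    (hpl : p < l) (hZ : Supp p l Z) {i j k : Fin N} (h : ¬ (i = p ∧ j < p)) :
    chord p l w i k * ((sg i j + sg k j) * Z k j) = 0 := by
  by_cases hC : chord p l w i k = 0
  · rw [hC]; ring
  · have hdiag : Z l l = 0 := hZ.near l l (by omega) (by omega)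
    rcases chord_ne hC with ⟨rfl, rfl⟩ | ⟨rfl, rfl⟩
    · have hj : i ≤ j := by
        by_contra hc
        exact h ⟨rfl, not_le.mp hc⟩
      rcases hj.eq_or_lt with rfl | hj
      · rw [hZ.lp]; ring
      · rcases (hl j).eq_or_lt with rfl | hj'
        · rw [hdiag]; ring
        · rw [sg_lt hj, sg_gt hj']; ring
    · rcases le_or_gt j k with hj | hj
      · rw [hZ.tail k j le_rfl hj]; ring
      · rcases (hl j).eq_or_lt with rfl | hj'
        · rw [hZ.pl]; ring
        · rw [sg_lt hj, sg_gt hj']; ring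

lemma term2 {p l : Fin N} {w : ℝ} {Z : Matrix (Fin N) (Fin N) ℝ} (hl : ∀ i : Fin N, i ≤ l)
    (hpl : p < l) (hZ : Supp p l Z) {i j k : Fin N} (h : ¬ (j = p ∧ i < p)) :
    chord p l w k j * ((sg i j + sg i k) * Z i k) = 0 := by
  by_cases hC : chord p l w k j = 0
  · rw [hC]; ring
  · have hdiag : Z l l = 0 := hZ.near l l (by omega) (by omega)
    rcases chord_ne hC with ⟨rfl, rfl⟩ | ⟨rfl, rfl⟩
    · rcases le_or_gt i k with hi | hi
      · rw [hZ.tail i k hi le_rfl]; ring
      · rcases (hl i).eq_or_lt with rfl | hi'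
        · rw [hZ.lp]; ring
        · rw [sg_gt hi, sg_lt hi']; ring
    · have hi : j ≤ i := by
        by_contra hc
        exact h ⟨rfl, not_le.mp hc⟩
      rcases hi.eq_or_lt with rfl | hi
      · rw [hZ.pl]; ring
      · rcases (hl i).eq_or_lt with rfl | hi'
        · rw [hdiag]; ring
        · rw [sg_gt hi, sg_lt hi']; ring

lemma defect_zero {p l : Fin N} {w : ℝ} {Z : Matrix (Fin N) (Fin N) ℝ} (hl : ∀ i : Fin N, i ≤ l)
    (hpl : p < l) (hZ : Supp p l Z) {i j : Fin N} (h1 : ¬ (i = p ∧ j < p))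
    (h2 : ¬ (j = p ∧ i < p)) : defect (chord p l w) Z i j = 0 := by
  rw [defect_apply]
  refine Finset.sum_eq_zero fun k _ => ?_
  rw [term1 hl hpl hZ h1, term2 hl hpl hZ h2, sub_zero]

lemma defect_left {p l : Fin N} {w : ℝ} {Z : Matrix (Fin N) (Fin N) ℝ} (hl : ∀ i : Fin N, i ≤ l)
    (hpl : p < l) (hZ : Supp p l Z) {j : Fin N} (hj : j < p) :
    defect (chord p l w) Z p j = -(2 * w * Z l j) := by
  rw [defect_apply, Finset.sum_eq_single l]
  · rw [term2 hl hpl hZ (by rintro ⟨h, _⟩; exact absurd h hj.ne), sg_gt hj, sg_gt (hj.trans hpl)]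
    simp only [chord, and_self, true_or, if_true]
    ring
  · intro k _ hk
    rw [term2 hl hpl hZ (by rintro ⟨h, _⟩; exact absurd h hj.ne)]
    have : chord p l w p k = 0 := by
      by_contra hc
      rcases chord_ne hc with ⟨_, h⟩ | ⟨h, _⟩
      · exact hk h
      · exact absurd h hpl.ne
    rw [this]; ring
  · intro h; exact absurd (Finset.mem_univ _) h

lemma defect_right {p l : Fin N} {w : ℝ} {Z : Matrix (Fin N) (Fin N) ℝ} (hl : ∀ i : Fin N, i ≤ l)
    (hpl : p < l) (hZ : Supp p l Z) {i : Fin N} (hi : i < p) :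
    defect (chord p l w) Z i p = -(2 * w * Z i l) := by
  rw [defect_apply, Finset.sum_eq_single l]
  · rw [term1 hl hpl hZ (by rintro ⟨h, _⟩; exact absurd h hi.ne), sg_lt hi, sg_lt (hi.trans hpl)]
    simp only [chord, and_self, or_true, if_true]
    ring
  · intro k _ hk
    rw [term1 hl hpl hZ (by rintro ⟨h, _⟩; exact absurd h hi.ne)]
    have : chord p l w k p = 0 := by
      by_contra hc
      rcases chord_ne hc with ⟨_, h⟩ | ⟨h, _⟩
      · exact absurd h hpl.ne
      · exact hk h
    rw [this]; ring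
  · intro h; exact absurd (Finset.mem_univ _) h

/-- If `Z` moreover vanishes at `(l, j)`, `(j, l)` for `j < p`, there is no defect. -/
lemma defect_eq_zero {p l : Fin N} {w : ℝ} {Z : Matrix (Fin N) (Fin N) ℝ} (hl : ∀ i : Fin N, i ≤ l)
    (hpl : p < l) (hZ : Supp p l Z) (h1 : ∀ j, j < p → Z l j = 0) (h2 : ∀ j, j < p → Z j l = 0) :
    defect (chord p l w) Z = 0 := by
  ext i j
  by_cases hi : i = p ∧ j < p
  · obtain ⟨rfl, hj⟩ := hi
    rw [defect_left hl hpl hZ hj, h1 j hj]; simp
  · by_cases hj : j = p ∧ i < p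
    · obtain ⟨rfl, hi'⟩ := hj
      rw [defect_right hl hpl hZ hi', h2 i hi']; simp
    · rw [defect_zero hl hpl hZ hi hj]; rfl

/-- commutator of the flipped matrix with the sign-flipped chord -/
lemma comm_flip {J C Z : Matrix (Fin N) (Fin N) ℝ} (hJ : Tri J) (hZ : NearZero Z)
    (h : (J + C) * Z = Z * (J + C)) :
    (J - C) * flip Z - flip Z * (J - C) = - defect C Z := by
  have h1 := mul_flip hJ hZ
  have h2 := flip_mul hJ hZ
  have h3 : C * Z - Z * C = -(J * Z - Z * J) := by
    rw [add_mul, mul_add] at h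
    have : J * Z = Z * J + Z * C - C * Z := by rw [← h]; abel
    rw [this]; abel
  have h4 : flip (C * Z - Z * C) = -(flip (J * Z) - flip (Z * J)) := by
    rw [h3]
    ext i j
    simp only [flip, Matrix.neg_apply, Matrix.sub_apply]
    ring
  unfold defect
  rw [h4, sub_mul, mul_sub, h1, h2]
  abel

lemma comm_flip' {J C Z : Matrix (Fin N) (Fin N) ℝ} (hJ : Tri J) (hZ : NearZero Z)
    (h : (J - C) * Z = Z * (J - C)) :
    (J + C) * flip Z - flip Z * (J + C) = defect C Z := by
  have h1 := mul_flip hJ hZ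
  have h2 := flip_mul hJ hZ
  have h3 : C * Z - Z * C = J * Z - Z * J := by
    rw [sub_mul, mul_sub] at h
    have : J * Z = Z * J - Z * C + C * Z := by rw [← h]; abel
    rw [this]; abel
  have h4 : flip (C * Z - Z * C) = flip (J * Z) - flip (Z * J) := by
    rw [h3]
    ext i j
    simp only [flip, Matrix.sub_apply]
    ring
  unfold defect
  rw [h4, add_mul, mul_add, h1, h2]
  abel

end Pool.Agent.Lib_helper85.SSP
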