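import Pool.Agent.Lib_helper85.SSPDefs

namespace Pool.Agent.Lib_helper85.SSP

open SimpleGraph

/-- A connected graph with as many edges as vertices is unicyclic. -/
lemma unicyclic_of_card {V : Type} [Finite V] {G : SimpleGraph V} (hc : G.Connected)
    (hcard : Nat.card G.edgeSet = Nat.card V) :
    (¬ G.IsAcyclic) ∧ ∀ (v w : V) (c : G.Walk v v) (d : G.Walk w w), c.IsCycle → d.IsCycle →
      {e | e ∈ c.edges} = {e | e ∈ d.edges} := by
  classical
  have : Fintype V := Fintype.ofFinite V
  constructor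
  · intro hac
    have ht : G.IsTree := ⟨hc, hac⟩
    have := (isTree_iff_connected_and_card.mp ht).2
    omega
  · have key : ∀ (v w : V) (c : G.Walk v v) (d : G.Walk w w), c.IsCycle → d.IsCycle →
        ∀ e, e ∈ c.edges → e ∈ d.edges := by
      intro v w c d hcc hdc e he
      by_contra hed
      have heG : e ∈ G.edgeSet := c.edges_subset_edgeSet he
      have hnb : ¬ G.IsBridge e := fun hb => hb.notMem_edges_of_isCycle hcc he
      obtain ⟨x, y⟩ := e
      have hconn := hc.connected_delete_edge_of_not_isBridge hnb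
      have hcard' : Nat.card (G.deleteEdges {s(x, y)}).edgeSet + 1 = Nat.card V := by
        rw [← hcard, edgeSet_deleteEdges]
        have h1 : (G.edgeSet \ {s(x, y)}).ncard + 1 = G.edgeSet.ncard :=
          Set.ncard_sdiff_singleton_add_one heG (Set.toFinite _)
        exact h1
      have htree : (G.deleteEdges {s(x, y)}).IsTree :=
        isTree_iff_connected_and_card.mpr ⟨hconn, hcard'⟩
      have hd' : ∀ e', e' ∈ d.edges → e' ∉ ({s(x, y)} : Set (Sym2 V)) := by
        intro e' he' h
        rw [Set.mem_singleton_iff] at h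
        rw [h] at he'
        exact hed he'
      exact htree.isAcyclic _ (Walk.IsCycle.toDeleteEdges G {s(x, y)} hdc hd')
    intro v w c d hcc hdc
    ext e
    exact ⟨key v w c d hcc hdc e, key w v d c hdc hcc e⟩

lemma isUnicyclic_of_card {V : Type} [Finite V] {G : SimpleGraph V} (hc : G.Connected)
    (hcard : Nat.card G.edgeSet = Nat.card V) : IsUnicyclic G := by
  obtain ⟨h1, h2⟩ := unicyclic_of_card hc hcard
  refine ⟨hc, ?_⟩
  simp only [IsAcyclic] at h1
  push Not at h1
  obtain ⟨v, c, hcc⟩ := h1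
  refine ⟨_, ⟨v, c, hcc, rfl⟩, ?_⟩
  rintro s ⟨w, d, hdc, rfl⟩
  exact h2 w v d c hdc hcc

lemma length_eq_of_edges {V : Type} {G : SimpleGraph V} {v w : V} {c : G.Walk v v}
    {d : G.Walk w w} (hc : c.IsCycle) (hd : d.IsCycle) (h : {e | e ∈ c.edges} = {e | e ∈ d.edges}) :
    c.length = d.length := by
  classical
  rw [← Walk.length_edges, ← Walk.length_edges,
    ← List.toFinset_card_of_nodup hc.isCircuit.isTrail.edges_nodup,
    ← List.toFinset_card_of_nodup hd.isCircuit.isTrail.edges_nodup]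
  congr 1
  ext e
  have := Set.ext_iff.mp h e
  simpa using this

/-- inclusion of the cycle into the tadpole -/
def cycHom (m n : ℕ) : cycleGraph m →g tadpole m n where
  toFun i := Sum.inl i
  map_rel' := fun h => h

def pathHom (m n : ℕ) : pathGraph n →g tadpole m n where
  toFun i := Sum.inr i
  map_rel' := fun h => h

lemma tadpole_connected (m n : ℕ) (hm : 3 ≤ m) : (tadpole m n).Connected := by
  obtain ⟨k, rfl⟩ : ∃ k, m = k + 1 := ⟨m - 1, by omega⟩
  rw [connected_iff_exists_forall_reachable]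
  refine ⟨Sum.inl 0, ?_⟩
  have hl : ∀ i : Fin (k + 1), (tadpole (k + 1) n).Reachable (Sum.inl 0) (Sum.inl i) := by
    intro i
    have := (cycleGraph_connected (n := k)).preconnected 0 i
    exact this.map (cycHom (k + 1) n)
  rintro (i | j)
  · exact hl i
  · have hn : 0 < n := by have := j.isLt; omega
    have h1 : (tadpole (k + 1) n).Adj (Sum.inl 0) (Sum.inr ⟨0, hn⟩) := ⟨rfl, rfl⟩
    have h2 : (pathGraph n).Reachable ⟨0, hn⟩ j := pathGraph_preconnected n _ _
    exact h1.reachable.trans (h2.map (pathHom (k + 1) n))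

/-- an edge attached to each vertex -/
def edgeOf (m n : ℕ) (hm : 0 < m) : Fin m ⊕ Fin n → Sym2 (Fin m ⊕ Fin n)
  | Sum.inl i => s(Sum.inl i, Sum.inl ⟨(i.val + 1) % m, Nat.mod_lt _ hm⟩)
  | Sum.inr j => if h : j.val = 0 then s(Sum.inl ⟨0, hm⟩, Sum.inr j) else
      s(Sum.inr ⟨j.val - 1, by have := j.isLt; omega⟩, Sum.inr j)

lemma succ_mod_cases {m i : ℕ} (hi : i < m) :
    (i + 1 < m ∧ (i + 1) % m = i + 1) ∨ (i + 1 = m ∧ (i + 1) % m = 0) := by
  rcases Nat.lt_or_ge (i + 1) m with h | h
  · left; exact ⟨h, Nat.mod_eq_of_lt h⟩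
  · right
    have : i + 1 = m := by omega
    exact ⟨this, by rw [this, Nat.mod_self]⟩

lemma cycle_adj_val {m : ℕ} (hm : 2 ≤ m) (i j : Fin m) : (cycleGraph m).Adj i j ↔
    (i.val + 1 = j.val ∨ j.val + 1 = i.val ∨ (i.val = 0 ∧ j.val + 1 = m) ∨
      (j.val = 0 ∧ i.val + 1 = m)) := by
  have key : ∀ i j : Fin m, (i - j).val = 1 ↔ (j.val + 1 = i.val ∨ (i.val = 0 ∧ j.val + 1 = m)) := by
    intro i j
    rcases le_or_gt j i with h | h
    · rw [Fin.coe_sub_iff_le.mpr h]
      have : j.val ≤ i.val := h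
      omega
    · rw [Fin.coe_sub_iff_lt.mpr h]
      have : i.val < j.val := h
      omega
  rw [cycleGraph_adj', key, key]
  tauto

lemma edgeOf_mem (m n : ℕ) (hm : 3 ≤ m) (v : Fin m ⊕ Fin n) :
    edgeOf m n (by omega) v ∈ (tadpole m n).edgeSet := by
  rcases v with i | j
  · simp only [edgeOf, mem_edgeSet]
    change (cycleGraph m).Adj _ _
    rw [cycle_adj_val (by omega)]
    simp only []
    rcases succ_mod_cases i.isLt with ⟨h1, h2⟩ | ⟨h1, h2⟩
    · left; omega
    · right; right; right; omega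
  · simp only [edgeOf]
    by_cases h : j.val = 0
    · rw [dif_pos h, mem_edgeSet]
      exact ⟨rfl, h⟩
    · rw [dif_neg h, mem_edgeSet]
      change (pathGraph n).Adj _ _
      rw [pathGraph_adj]
      left
      simp only []
      omega

lemma edgeOf_inj (m n : ℕ) (hm : 3 ≤ m) : Function.Injective (edgeOf m n (by omega)) := by
  rintro (i | j) (i' | j') h
  · simp only [edgeOf, Sym2.eq_iff, Sum.inl.injEq] at h
    rcases h with ⟨h1, _⟩ | ⟨h1, h2⟩
    · rw [h1]
    · exfalso
      have h1' := congrArg Fin.val h1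
      have h2' := congrArg Fin.val h2
      simp only [] at h1' h2'
      rcases succ_mod_cases i.isLt with ⟨h3, h4⟩ | ⟨h3, h4⟩ <;>
      rcases succ_mod_cases i'.isLt with ⟨h5, h6⟩ | ⟨h5, h6⟩ <;> omega
  · exfalso
    simp only [edgeOf] at h
    by_cases h0 : j'.val = 0
    · rw [dif_pos h0] at h
      simp at h
    · rw [dif_neg h0] at h
      simp at h
  · exfalso
    simp only [edgeOf] at h
    by_cases h0 : j.val = 0
    · rw [dif_pos h0] at h
      simp at h
    · rw [dif_neg h0] at h
      simp at h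
  · simp only [edgeOf] at h
    by_cases h0 : j.val = 0
    · by_cases h0' : j'.val = 0
      · rw [Fin.ext (show j.val = j'.val by omega)]
      · rw [dif_pos h0, dif_neg h0'] at h
        simp at h
    · by_cases h0' : j'.val = 0
      · rw [dif_neg h0, dif_pos h0'] at h
        simp at h
      · rw [dif_neg h0, dif_neg h0'] at h
        simp only [Sym2.eq_iff, Sum.inr.injEq] at h
        rcases h with ⟨_, h2⟩ | ⟨h1, h2⟩
        · rw [h2]
        · exfalso
          have h1' := congrArg Fin.val h1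
          have h2' := congrArg Fin.val h2
          simp only [] at h1' h2'
          omega

lemma edgeOf_surj (m n : ℕ) (hm : 3 ≤ m) (e : Sym2 (Fin m ⊕ Fin n))
    (he : e ∈ (tadpole m n).edgeSet) : ∃ v, edgeOf m n (by omega) v = e := by
  have main : ∀ u v : Fin m ⊕ Fin n, (tadpole m n).Adj u v →
      ∃ w, edgeOf m n (by omega) w = s(u, v) := by
    have hcyc : ∀ i j : Fin m, (i.val + 1 = j.val ∨ (j.val = 0 ∧ i.val + 1 = m)) →
        edgeOf m n (by omega) (Sum.inl i) = s(Sum.inl i, Sum.inl j) := by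
      intro i j h
      simp only [edgeOf]
      congr 3
      rcases succ_mod_cases i.isLt with ⟨h3, h4⟩ | ⟨h3, h4⟩ <;> omega
    have hpath : ∀ i j : Fin n, i.val + 1 = j.val →
        edgeOf m n (by omega) (Sum.inr j) = s(Sum.inr i, Sum.inr j) := by
      intro i j h
      simp only [edgeOf]
      rw [dif_neg (by omega)]
      congr 3
      omega
    rintro (i | i) (j | j) h
    · have h' : (cycleGraph m).Adj i j := h
      rw [cycle_adj_val (by omega)] at h'
      rcases h' with h' | h' | h' | h'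
      · exact ⟨_, hcyc i j (Or.inl h')⟩
      · exact ⟨_, (hcyc j i (Or.inl h')).trans Sym2.eq_swap⟩
      · exact ⟨_, (hcyc j i (Or.inr h')).trans Sym2.eq_swap⟩
      · exact ⟨_, hcyc i j (Or.inr h')⟩
    · obtain ⟨h1, h2⟩ : i.val = 0 ∧ j.val = 0 := h
      refine ⟨Sum.inr j, ?_⟩
      simp only [edgeOf]
      rw [dif_pos h2]
      congr 3
      exact h1.symm
    · obtain ⟨h1, h2⟩ : j.val = 0 ∧ i.val = 0 := h
      refine ⟨Sum.inr i, ?_⟩
      simp only [edgeOf]
      rw [dif_pos h2, Sym2.eq_swap]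
      congr 3
      exact h1.symm
    · have h' : (pathGraph n).Adj i j := h
      rw [pathGraph_adj] at h'
      rcases h' with h' | h'
      · exact ⟨_, hpath i j h'⟩
      · exact ⟨_, (hpath j i h').trans Sym2.eq_swap⟩
  induction e using Sym2.ind with
  | _ u v => exact main u v he

lemma tadpole_card (m n : ℕ) (hm : 3 ≤ m) :
    Nat.card (tadpole m n).edgeSet = Nat.card (Fin m ⊕ Fin n) := by
  symm
  refine Nat.card_congr (Equiv.ofBijective
    (fun v => (⟨edgeOf m n (by omega) v, edgeOf_mem m n hm v⟩ : (tadpole m n).edgeSet)) ⟨?_, ?_⟩)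
  · intro v w h
    exact edgeOf_inj m n hm (congrArg Subtype.val h)
  · rintro ⟨e, he⟩
    obtain ⟨v, hv⟩ := edgeOf_surj m n hm e he
    exact ⟨v, Subtype.ext hv⟩

theorem tadpole_unicyclic (m n : ℕ) (hm : 3 ≤ m) :
    IsUnicyclic (tadpole m n) ∧ (tadpole m n).girth = m := by
  refine ⟨isUnicyclic_of_card (tadpole_connected m n hm) (tadpole_card m n hm), ?_⟩
  obtain ⟨h1, h2⟩ := unicyclic_of_card (tadpole_connected m n hm) (tadpole_card m n hm)
  obtain ⟨v, c, hc, hg⟩ := exists_girth_eq_length.mpr h1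
  obtain ⟨k, rfl⟩ : ∃ k, m = k + 3 := ⟨m - 3, by omega⟩
  have hcyc : ((cycleGraph.cycle k).map (cycHom (k + 3) n)).IsCycle :=
    cycleGraph.isCycle_cycle.map Sum.inl_injective
  rw [hg, length_eq_of_edges hc hcyc (h2 _ _ _ _ hc hcyc), Walk.length_map,
    cycleGraph.length_cycle]

end Pool.Agent.Lib_helper85.SSP
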