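import Pool.Agent.Lib_helper85.SSPExists
import Pool.Agent.Lib_helper85.SSPUnicyc

namespace Pool.Agent.Lib_helper85.SSP

open Matrix Finset SimpleGraph

/-- the labelling of the tadpole by `0, ..., n + M`: first the tail from its free end, then the
cycle -/
def lab (n M : ℕ) : Fin (M + 1) ⊕ Fin n ≃ Fin (n + 1 + M) where
  toFun := fun x => match x with
    | Sum.inl i => ⟨n + i.val, by have := i.isLt; omega⟩
    | Sum.inr j => ⟨n - 1 - j.val, by have := j.isLt; omega⟩
  invFun := fun k => if h : k.val < n then Sum.inr ⟨n - 1 - k.val, by omega⟩ else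
    Sum.inl ⟨k.val - n, by have := k.isLt; omega⟩
  left_inv := by
    rintro (i | j)
    · simp
    · have hj := j.isLt
      have h : n - 1 - j.val < n := by omega
      simp only [h, dif_pos, Sum.inr.injEq]
      apply Fin.ext
      simp only []
      omega
  right_inv := by
    intro k
    by_cases h : k.val < n
    · simp only [h, dif_pos]
      apply Fin.ext
      simp only []
      omega
    · simp only [h, dif_neg, not_false_iff]
      apply Fin.ext
      simp only []
      omega

lemma lab_inl (n M : ℕ) (i : Fin (M + 1)) : (lab n M (Sum.inl i)).val = n + i.val := rfl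
lemma lab_inr (n M : ℕ) (j : Fin n) : (lab n M (Sum.inr j)).val = n - 1 - j.val := rfl

lemma adj_iff {n M : ℕ} (hM : 2 ≤ M) (u v : Fin (M + 1) ⊕ Fin n) :
    (tadpole (M + 1) n).Adj u v ↔ ((lab n M u).val + 1 = (lab n M v).val ∨
      (lab n M v).val + 1 = (lab n M u).val ∨
      ((lab n M u).val = n ∧ (lab n M v).val = n + M) ∨
      ((lab n M u).val = n + M ∧ (lab n M v).val = n)) := by
  rcases u with i | i <;> rcases v with j | j
  · rw [lab_inl, lab_inl]
    change (cycleGraph (M + 1)).Adj i j ↔ _
    rw [cycle_adj_val (by omega)]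
    omega
  · rw [lab_inl, lab_inr]
    change (i.val = 0 ∧ j.val = 0) ↔ _
    have := i.isLt
    have := j.isLt
    omega
  · rw [lab_inl, lab_inr]
    change (j.val = 0 ∧ i.val = 0) ↔ _
    have := i.isLt
    have := j.isLt
    omega
  · rw [lab_inr, lab_inr]
    change (pathGraph n).Adj i j ↔ _
    rw [pathGraph_adj]
    have := i.isLt
    have := j.isLt
    omega

/-- the junction vertex and the last vertex -/
def pv (n M : ℕ) : Fin (n + 1 + M) := Fin.castAdd M (Fin.last n)
def lv (n M : ℕ) (hM : 0 < M) : Fin (n + 1 + M) := Fin.natAdd (n + 1) ⟨M - 1, by omega⟩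

lemma pv_val (n M : ℕ) : (pv n M).val = n := rfl
lemma lv_val (n M : ℕ) (hM : 0 < M) : (lv n M hM).val = n + M := by
  simp only [lv, Fin.val_natAdd]
  omega

lemma smat_iff {n M : ℕ} (hM : 2 ≤ M) (A : Matrix (Fin (M + 1) ⊕ Fin n) (Fin (M + 1) ⊕ Fin n) ℝ) :
    A ∈ SMat (tadpole (M + 1) n) ↔
      LinePat (pv n M) (lv n M (by omega)) (A.submatrix (lab n M).symm (lab n M).symm) := by
  have hpv := pv_val n M
  have hlv := lv_val n M (by omega)
  constructor
  · rintro ⟨hs, ha⟩
    have hadj : ∀ i j : Fin (n + 1 + M), i ≠ j →
        (A ((lab n M).symm i) ((lab n M).symm j) ≠ 0 ↔ (i.val + 1 = j.val ∨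
        j.val + 1 = i.val ∨ (i.val = n ∧ j.val = n + M) ∨ (i.val = n + M ∧ j.val = n))) := by
      intro i j hij
      rw [ha _ _ (by
        intro h
        exact hij ((lab n M).symm.injective h)), adj_iff hM]
      simp
    refine ⟨?_, ?_, ?_, ?_⟩
    · intro i j
      simp only [Matrix.submatrix_apply]
      exact hs.apply _ _
    · intro i j hij
      simp only [Matrix.submatrix_apply]
      rw [hadj i j (by rintro rfl; omega)]
      left; exact hij
    · simp only [Matrix.submatrix_apply]
      rw [hadj _ _ (by intro h; have := congrArg Fin.val h; omega)]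
      right; right; left
      exact ⟨hpv, hlv⟩
    · intro i j hij hn
      simp only [Matrix.submatrix_apply]
      by_contra hc
      have := (hadj i j (by rintro rfl; omega)).mp hc
      rcases this with h | h | h | h
      · omega
      · omega
      · exact hn ⟨Fin.ext (by omega), Fin.ext (by omega)⟩
      · omega
  · intro h
    have hval : ∀ u v, A u v = (A.submatrix (lab n M).symm (lab n M).symm) (lab n M u) (lab n M v) := by
      intro u v; simp
    refine ⟨?_, ?_⟩
    · ext u v
      rw [Matrix.transpose_apply, hval v u, hval u v]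
      exact h.symm _ _
    · intro u v huv
      rw [adj_iff hM, hval u v]
      have huv' : lab n M u ≠ lab n M v := fun h => huv ((lab n M).injective h)
      generalize lab n M u = i at huv' ⊢
      generalize lab n M v = j at huv' ⊢
      constructor
      · intro hne
        by_contra hc
        push Not at hc
        rcases lt_trichotomy i.val j.val with h1 | h1 | h1
        · apply hne
          apply h.z i j (by omega)
          rintro ⟨h2, h3⟩
          rw [h2, h3] at hc
          exact hc.2.2.1 hpv hlv
        · exact huv' (Fin.ext h1)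
        · apply hne
          rw [h.symm]
          apply h.z j i (by omega)
          rintro ⟨h2, h3⟩
          rw [h2, h3] at hc
          exact hc.2.2.2 hlv hpv
      · rintro (h1 | h1 | ⟨h1, h2⟩ | ⟨h1, h2⟩)
        · exact h.nz i j h1
        · rw [h.symm]; exact h.nz j i h1
        · have e1 : i = pv n M := Fin.ext (by omega)
          have e2 : j = lv n M (by omega) := Fin.ext (by omega)
          rw [e1, e2]; exact h.nzc
        · have e1 : j = pv n M := Fin.ext (by omega)
          have e2 : i = lv n M (by omega) := Fin.ext (by omega)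
          rw [e1, e2, h.symm]; exact h.nzc

theorem suff (n M : ℕ) (hM : 2 ≤ M) (hn : 1 ≤ n) (h : M + 1 ≤ 2 * n + 3) :
    InGSSP (tadpole (M + 1) n) := by
  intro A hA X hXs hAX hIX hcomm
  have hpv := pv_val n M
  have hlv := lv_val n M (by omega)
  have hpat := (smat_iff hM A).mp hA
  set e := (lab n M).symm with he
  set A' := A.submatrix e e with hA'
  set X' := X.submatrix e e with hX'
  have hXd : ∀ i, X' i i = 0 := by
    intro i
    have h0 := congrFun (congrFun hIX (e i)) (e i)
    rw [Matrix.hadamard_apply, Matrix.one_apply_eq, one_mul] at h0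
    exact h0
  have hXe : ∀ i j, A' i j ≠ 0 → X' i j = 0 := by
    intro i j hij
    have := congrFun (congrFun hAX (e i)) (e j)
    rw [Matrix.hadamard_apply] at this
    exact (mul_eq_zero.mp this).resolve_left hij
  have hXs' : ∀ i j, X' i j = X' j i := fun i j => hXs.apply _ _
  have hzero : X' = 0 := by
    refine line_suff hpat ?_ (by omega) (by omega) (by omega) hXs' ?_ ?_ ?_
    · intro i
      rw [Fin.le_def, hlv]
      have := i.isLt
      omega
    · intro i j h1 h2
      rcases lt_trichotomy i.val j.val with h3 | h3 | h3
      · exact hXe i j (hpat.nz i j (by omega))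
      · have : i = j := Fin.ext h3
        rw [this]; exact hXd j
      · rw [hXs']; exact hXe j i (hpat.nz j i (by omega))
    · exact hXe _ _ hpat.nzc
    · rw [hA', hX', Matrix.submatrix_mul_equiv, Matrix.submatrix_mul_equiv, sub_eq_zero.mp hcomm]
  ext u v
  have := congrFun (congrFun hzero (lab n M u)) (lab n M v)
  simpa [hX', he] using this

theorem fail (n M : ℕ) (h : 2 * n + 3 ≤ M) : ¬ InGSSP (tadpole (M + 1) n) := by
  intro hG
  have hpv := pv_val n M
  have hlv := lv_val n M (by omega)
  obtain ⟨A', hpat, X', hX0, hXs, hnear, hXc, hcomm⟩ := exists_fail n M h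
  change LinePat (pv n M) (lv n M (by omega)) A' at hpat
  change X' (pv n M) (lv n M (by omega)) = 0 at hXc
  set e := lab n M with he
  set A := A'.submatrix e e with hA
  set X := X'.submatrix e e with hX
  have hAA : A.submatrix e.symm e.symm = A' := by
    ext i j; simp [hA]
  have hAS : A ∈ SMat (tadpole (M + 1) n) := by
    rw [smat_iff (by omega)]
    rw [← he, hAA]
    exact hpat
  have hz : ∀ i j, A' i j ≠ 0 → X' i j = 0 := by
    intro i j hij
    rcases lt_trichotomy i.val j.val with h1 | h1 | h1
    · by_cases h2 : i.val + 1 = j.val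
      · exact hnear i j (by omega) (by omega)
      · by_cases h3 : i = pv n M ∧ j = lv n M (by omega)
        · rw [h3.1, h3.2]; exact hXc
        · exact absurd (hpat.z i j (by omega) h3) hij
    · exact hnear i j (by omega) (by omega)
    · rw [hpat.symm] at hij
      rw [hXs]
      by_cases h2 : j.val + 1 = i.val
      · exact hnear j i (by omega) (by omega)
      · by_cases h3 : j = pv n M ∧ i = lv n M (by omega)
        · rw [h3.1, h3.2]; exact hXc
        · exact absurd (hpat.z j i (by omega) h3) hij
  have hXzero := hG A hAS X (by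
      ext u v
      simp only [hX, Matrix.transpose_apply, Matrix.submatrix_apply]
      exact hXs _ _) (by
      ext u v
      rw [Matrix.hadamard_apply]
      by_cases hc : A u v = 0
      · rw [hc]; simp
      · have : X u v = 0 := hz (e u) (e v) hc
        rw [this]; simp) (by
      ext u v
      rw [Matrix.hadamard_apply]
      by_cases hc : u = v
      · subst hc
        have : X u u = 0 := hnear (e u) (e u) (by omega) (by omega)
        rw [this]; simp
      · rw [Matrix.one_apply_ne hc]; simp) (by
      rw [hA, hX, Matrix.submatrix_mul_equiv, Matrix.submatrix_mul_equiv, hcomm, sub_self])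
  apply hX0
  ext i j
  have := congrFun (congrFun hXzero (e.symm i)) (e.symm j)
  simpa [hX] using this

theorem tadpole_iff (m n : ℕ) (hm : 3 ≤ m) (hn : 1 ≤ n) :
    InGSSP (tadpole m n) ↔ m ≤ 2 * n + 3 := by
  obtain ⟨M, rfl⟩ : ∃ M, m = M + 1 := ⟨m - 1, by omega⟩
  constructor
  · intro h
    by_contra hc
    exact fail n M (by omega) h
  · intro h
    exact suff n M (by omega) hn h

end Pool.Agent.Lib_helper85.SSP
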