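import Pool.Agent.Lib_helper85.SSPFlip

namespace Pool.Agent.Lib_helper85.SSP

open Matrix Finset

variable {N : ℕ}

/-- pattern of a matrix of the path `0, ..., N-1` plus the chord `p l` -/
structure LinePat (p l : Fin N) (A : Matrix (Fin N) (Fin N) ℝ) : Prop where
  symm : ∀ i j, A i j = A j i
  nz : ∀ i j : Fin N, i.val + 1 = j.val → A i j ≠ 0
  nzc : A p l ≠ 0
  z : ∀ i j : Fin N, i.val + 1 < j.val → ¬ (i = p ∧ j = l) → A i j = 0

lemma comm_entry {A X : Matrix (Fin N) (Fin N) ℝ} (h : A * X = X * A) (i j : Fin N) :
    ∑ k, A i k * X k j = ∑ k, X i k * A k j := by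
  have := congrFun (congrFun h i) j
  simpa [Matrix.mul_apply] using this

lemma chain (lo hi : ℕ) {A X : Matrix (Fin N) (Fin N) ℝ} (hAs : ∀ i j, A i j = A j i)
    (hXs : ∀ i j, X i j = X j i) (hX0 : NearZero X) (hcomm : A * X = X * A)
    (hA : ∀ i k : Fin N, lo ≤ i.val → i.val < hi → A i k ≠ 0 →
      (k.val + 1 = i.val ∨ k = i ∨ k.val = i.val + 1) ∨
        ∀ j : Fin N, lo ≤ j.val → j.val ≤ hi → X k j = 0)
    (hlo : ∀ k j : Fin N, k.val + 1 = lo → lo ≤ j.val → j.val ≤ hi → X k j = 0)
    (hnz : ∀ i j : Fin N, lo ≤ i.val → i.val < hi → i.val + 1 = j.val → A i j ≠ 0) :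
    ∀ i j : Fin N, lo ≤ i.val → i.val ≤ hi → lo ≤ j.val → j.val ≤ hi → X i j = 0 := by
  have key : ∀ s : ℕ, ∀ t : ℕ, ∀ i j : Fin N, i.val = t → lo ≤ i.val → j.val = i.val + s →
      j.val ≤ hi → X i j = 0 := by
    intro s
    induction s using Nat.strong_induction_on with
    | _ s IH =>
      intro t
      induction t with
      | zero =>
        intro i j hi0 hlo' hjs hjhi
        by_cases hs : s ≤ 1
        · exact hX0 i j (by omega) (by omega)
        · obtain ⟨s', rfl⟩ : ∃ s', s = s' + 1 := ⟨s - 1, by omega⟩
          set j0 : Fin N := ⟨i.val + s', by have := j.isLt; omega⟩ with hj0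
          have hj0v : j0.val = i.val + s' := rfl
          have hc := comm_entry hcomm i j0
          have hL : ∑ k, A i k * X k j0 = 0 := by
            refine Finset.sum_eq_zero fun k _ => ?_
            by_cases hk : A i k = 0
            · rw [hk]; ring
            · rcases hA i k hlo' (by omega) hk with (h | rfl | h) | h
              · omega
              · rw [IH s' (by omega) k.val k j0 rfl hlo' hj0v (by omega)]; ring
              · rw [IH (s' - 1) (by omega) k.val k j0 rfl (by omega) (by omega) (by omega)]; ring
              · rw [h j0 (by omega) (by omega)]; ring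
          have hR : ∑ k, X i k * A k j0 = X i j * A j j0 := by
            refine Finset.sum_eq_single j ?_ (fun h => absurd (Finset.mem_univ _) h)
            intro k _ hkj
            by_cases hk : A j0 k = 0
            · rw [hAs k j0, hk]; ring
            · rcases hA j0 k (by omega) (by omega) hk with (h | rfl | h) | h
              · rw [IH (s' - 1) (by omega) i.val i k rfl hlo' (by omega) (by omega)]; ring
              · rw [IH s' (by omega) i.val i j0 rfl hlo' hj0v (by omega)]; ring
              · exact absurd (Fin.ext (by omega)) hkj
              · rw [hXs i k, h i hlo' (by omega)]; ring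
          rw [hL, hR] at hc
          have hne : A j j0 ≠ 0 := by
            rw [hAs]; exact hnz j0 j (by omega) (by omega) (by omega)
          exact (mul_eq_zero.mp hc.symm).resolve_right hne
      | succ t IHt =>
        intro i j hi0 hlo' hjs hjhi
        by_cases hs : s ≤ 1
        · exact hX0 i j (by omega) (by omega)
        · obtain ⟨s', rfl⟩ : ∃ s', s = s' + 1 := ⟨s - 1, by omega⟩
          set j0 : Fin N := ⟨i.val + s', by have := j.isLt; omega⟩ with hj0
          have hj0v : j0.val = i.val + s' := rfl
          have hc := comm_entry hcomm i j0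
          have hL : ∑ k, A i k * X k j0 = 0 := by
            refine Finset.sum_eq_zero fun k _ => ?_
            by_cases hk : A i k = 0
            · rw [hk]; ring
            · rcases hA i k hlo' (by omega) hk with (h | rfl | h) | h
              · by_cases hklo : lo ≤ k.val
                · rw [IHt k j0 (by omega) hklo (by omega) (by omega)]; ring
                · rw [hlo k j0 (by omega) (by omega) (by omega)]; ring
              · rw [IH s' (by omega) k.val k j0 rfl hlo' hj0v (by omega)]; ring
              · rw [IH (s' - 1) (by omega) k.val k j0 rfl (by omega) (by omega) (by omega)]; ring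
              · rw [h j0 (by omega) (by omega)]; ring
          have hR : ∑ k, X i k * A k j0 = X i j * A j j0 := by
            refine Finset.sum_eq_single j ?_ (fun h => absurd (Finset.mem_univ _) h)
            intro k _ hkj
            by_cases hk : A j0 k = 0
            · rw [hAs k j0, hk]; ring
            · rcases hA j0 k (by omega) (by omega) hk with (h | rfl | h) | h
              · rw [IH (s' - 1) (by omega) i.val i k rfl hlo' (by omega) (by omega)]; ring
              · rw [IH s' (by omega) i.val i j0 rfl hlo' hj0v (by omega)]; ring
              · exact absurd (Fin.ext (by omega)) hkj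
              · rw [hXs i k, h i hlo' (by omega)]; ring
          rw [hL, hR] at hc
          have hne : A j j0 ≠ 0 := by
            rw [hAs]; exact hnz j0 j (by omega) (by omega) (by omega)
          exact (mul_eq_zero.mp hc.symm).resolve_right hne
  intro i j h1 h2 h3 h4
  rcases le_total i.val j.val with h | h
  · exact key (j.val - i.val) i.val i j rfl h1 (by omega) h4
  · rw [hXs i j]
    exact key (i.val - j.val) j.val j i rfl h3 (by omega) h2

/-- the tridiagonal part -/
def triPart (p l : Fin N) (A : Matrix (Fin N) (Fin N) ℝ) : Matrix (Fin N) (Fin N) ℝ :=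
  A - chord p l (A p l)

lemma triPart_add (p l : Fin N) (A : Matrix (Fin N) (Fin N) ℝ) :
    triPart p l A + chord p l (A p l) = A := by simp [triPart]

lemma triPart_tri {p l : Fin N} {A : Matrix (Fin N) (Fin N) ℝ} (hA : LinePat p l A) :
    Tri (triPart p l A) := by
  intro i j hij
  simp only [triPart, Matrix.sub_apply, chord]
  by_cases h : (i = p ∧ j = l) ∨ (i = l ∧ j = p)
  · rw [if_pos h]
    rcases h with ⟨rfl, rfl⟩ | ⟨rfl, rfl⟩
    · ring
    · rw [hA.symm i j]; ring
  · rw [if_neg h]
    push Not at h
    rcases hij with hij | hij
    · rw [hA.z i j hij (by rintro ⟨h1, h2⟩; exact h.1 h1 h2)]; ring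
    · rw [hA.symm i j, hA.z j i hij (by rintro ⟨h1, h2⟩; exact h.2 h2 h1)]; ring

/-- The sign-flipped matrix. -/
def minus (p l : Fin N) (A : Matrix (Fin N) (Fin N) ℝ) : Matrix (Fin N) (Fin N) ℝ :=
  triPart p l A - chord p l (A p l)

lemma minus_apply (p l : Fin N) (A : Matrix (Fin N) (Fin N) ℝ) (i j : Fin N)
    (h : ¬ ((i = p ∧ j = l) ∨ (i = l ∧ j = p))) : minus p l A i j = A i j := by
  simp [minus, triPart, chord, h]

lemma pow_entry {p l : Fin N} {A : Matrix (Fin N) (Fin N) ℝ} (hA : LinePat p l A)
    (hpl : p.val + 1 < l.val) :
    ∀ s : ℕ, ∀ j : Fin N, (j.val + s < p.val → (minus p l A ^ s) j p = 0) ∧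
      (j.val + s = p.val → (minus p l A ^ s) j p ≠ 0) := by
  have hz : ∀ j k : Fin N, j.val < p.val → k.val ≠ j.val + 1 → j.val < k.val →
      minus p l A j k = 0 := by
    intro j k hj hk hjk
    rw [minus_apply _ _ _ _ _ (by
      rintro (⟨rfl, rfl⟩ | ⟨rfl, rfl⟩) <;> omega)]
    exact hA.z j k (by omega) (by rintro ⟨rfl, rfl⟩; omega)
  intro s
  induction s with
  | zero =>
    intro j
    constructor
    · intro h
      rw [pow_zero, Matrix.one_apply_ne]
      intro h'
      subst h'
      omega
    · intro h
      have : j = p := Fin.ext (by omega)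
      subst this
      rw [pow_zero, Matrix.one_apply_eq]
      exact one_ne_zero
  | succ s IH =>
    intro j
    constructor
    · intro h
      rw [pow_succ', Matrix.mul_apply]
      refine Finset.sum_eq_zero fun k _ => ?_
      by_cases hk : k.val ≤ j.val + 1
      · rw [(IH k).1 (by omega)]; ring
      · rw [hz j k (by omega) (by omega) (by omega)]; ring
    · intro h
      rw [pow_succ', Matrix.mul_apply]
      have hlt : j.val + 1 < N := by have := p.isLt; omega
      rw [Finset.sum_eq_single (⟨j.val + 1, hlt⟩ : Fin N)]
      · refine mul_ne_zero ?_ ((IH _).2 (by simp only []; omega))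
        rw [minus_apply _ _ _ _ _ (by
          rintro (⟨rfl, h'⟩ | ⟨rfl, h'⟩)
          · omega
          · omega)]
        exact hA.nz _ _ rfl
      · intro k _ hk
        have hk' : k.val ≠ j.val + 1 := fun h' => hk (Fin.ext h')
        by_cases hk2 : k.val ≤ j.val
        · rw [(IH k).1 (by omega)]; ring
        · rw [hz j k (by omega) hk' (by omega)]; ring
      · intro h'; exact absurd (Finset.mem_univ _) h'

/-- trace argument: a symmetric `D` supported on the entries `(p, j)`, `(j, p)` with `j < p`
that is a commutator with `minus p l A` is zero. -/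
lemma trace_arg {p l : Fin N} {A W D : Matrix (Fin N) (Fin N) ℝ} (hA : LinePat p l A)
    (hpl : p.val + 1 < l.val) (hD : minus p l A * W - W * minus p l A = D)
    (hDs : ∀ i j, D i j = D j i)
    (hD0 : ∀ i j, ¬ (i = p ∧ j < p) → ¬ (j = p ∧ i < p) → D i j = 0) :
    ∀ s : ℕ, ∀ j : Fin N, j.val + s = p.val → 1 ≤ s → D p j = 0 := by
  set B := minus p l A with hB
  have hBs : ∀ i j, B i j = B j i := by
    intro i j
    simp only [hB, minus, triPart, Matrix.sub_apply, chord]
    rw [hA.symm i j]
    congr 1
    · congr 1
      by_cases h : (i = p ∧ j = l) ∨ (i = l ∧ j = p)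
      · rw [if_pos h, if_pos (by tauto)]
      · rw [if_neg h, if_neg (by tauto)]
    · by_cases h : (i = p ∧ j = l) ∨ (i = l ∧ j = p)
      · rw [if_pos h, if_pos (by tauto)]
      · rw [if_neg h, if_neg (by tauto)]
  have hBt : Bᵀ = B := by ext i j; exact hBs j i
  have hpow : ∀ s : ℕ, ∀ i j, (B ^ s) i j = (B ^ s) j i := by
    intro s i j
    have : ((B ^ s)ᵀ) j i = (B ^ s) j i := by rw [Matrix.transpose_pow, hBt]
    exact this
  have htr : ∀ s : ℕ, (D * B ^ s).trace = 0 := by
    intro s
    rw [← hD, sub_mul, Matrix.trace_sub]
    have h1 : (B * W * B ^ s).trace = (W * (B ^ s * B)).trace := by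
      rw [Matrix.mul_assoc, Matrix.trace_mul_comm, Matrix.mul_assoc]
    have h2 : W * B * B ^ s = W * (B ^ s * B) := by
      rw [Matrix.mul_assoc, ← pow_succ, ← pow_succ']
    rw [h1, h2, sub_self]
  intro s
  induction s using Nat.strong_induction_on with
  | _ s IH =>
    intro j hj hs
    have hjp : j < p := by rw [Fin.lt_def]; omega
    have hzero : ∀ i : Fin N, i ≠ j → D p i * (B ^ s) i p = 0 := by
      intro i hij
      by_cases hip : i < p
      · have hip' : i.val < p.val := hip
        rcases lt_trichotomy i.val j.val with h | h | h
        · rw [(pow_entry hA hpl s i).1 (by omega)]; ring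
        · exact absurd (Fin.ext h) hij
        · rw [IH (p.val - i.val) (by omega) i (by omega) (by omega)]; ring
      · rw [hD0 p i (by rintro ⟨_, h⟩; exact hip h) (by rintro ⟨_, h⟩; exact absurd h (lt_irrefl _))]
        ring
    have hsum : (D * B ^ s).trace = 2 * (D p j * (B ^ s) j p) := by
      have e1 : (D * B ^ s).trace = ∑ i, ∑ k, D i k * (B ^ s) k i := by
        simp [Matrix.trace, Matrix.mul_apply]
      rw [e1]
      have e2 : ∀ i, i ≠ p → ∑ k, D i k * (B ^ s) k i = D i p * (B ^ s) p i := by
        intro i hi
        refine Finset.sum_eq_single p ?_ (fun h => absurd (Finset.mem_univ _) h)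
        intro k _ hk
        rw [hD0 i k (by rintro ⟨h, _⟩; exact hi h) (by rintro ⟨h, _⟩; exact hk h)]; ring
      have e3 : ∑ k, D p k * (B ^ s) k p = D p j * (B ^ s) j p := by
        refine Finset.sum_eq_single j ?_ (fun h => absurd (Finset.mem_univ _) h)
        intro k _ hk
        exact hzero k hk
      have e4 : ∑ i, ∑ k, D i k * (B ^ s) k i
          = ∑ i, (D p i * (B ^ s) i p + if i = p then D p j * (B ^ s) j p else 0) := by
        refine Finset.sum_congr rfl fun i _ => ?_
        by_cases hi : i = p
        · subst hi
          rw [e3, if_pos rfl, hD0 i i (by rintro ⟨_, h⟩; exact absurd h (lt_irrefl _))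
            (by rintro ⟨_, h⟩; exact absurd h (lt_irrefl _))]
          ring
        · rw [e2 i hi, if_neg hi, hDs i p, hpow s p i]; ring
      rw [e4, Finset.sum_add_distrib, e3]
      simp
      ring
    have h0 := htr s
    rw [hsum] at h0
    have hne := (pow_entry hA hpl s j).2 hj
    have : D p j * (B ^ s) j p = 0 := by linarith
    exact (mul_eq_zero.mp this).resolve_right hne

theorem line_suff {p l : Fin N} {A X : Matrix (Fin N) (Fin N) ℝ} (hA : LinePat p l A)
    (hl : ∀ i : Fin N, i ≤ l) (hpl : p.val + 1 < l.val) (hp : 1 ≤ p.val)
    (hn : l.val ≤ 3 * p.val + 2) (hXs : ∀ i j, X i j = X j i) (hX0 : NearZero X)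
    (hXc : X p l = 0) (hcomm : A * X = X * A) : X = 0 := by
  have hplt : p < l := by rw [Fin.lt_def]; omega
  -- neighbours of rows
  have hnb : ∀ i k : Fin N, i ≠ p → i ≠ l → A i k ≠ 0 →
      k.val + 1 = i.val ∨ k = i ∨ k.val = i.val + 1 := by
    intro i k hip hil hik
    by_contra hc
    push Not at hc
    rcases lt_trichotomy i.val k.val with h | h | h
    · exact hik (hA.z i k (by omega) (by rintro ⟨h1, _⟩; exact hip h1))
    · exact hc.2.1 (Fin.ext h.symm)
    · exact hik (by rw [hA.symm]; exact hA.z k i (by omega) (by rintro ⟨_, h1⟩; exact hil h1))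
  -- (1) the tail block
  have hblock : ∀ i j : Fin N, i ≤ p → j ≤ p → X i j = 0 := by
    intro i j hi hj
    refine chain 0 p.val hA.symm hXs hX0 hcomm ?_ ?_ ?_ i j (Nat.zero_le _) hi (Nat.zero_le _) hj
    · intro i k _ hip hik
      left
      refine hnb i k ?_ ?_ hik
      · rintro rfl; omega
      · rintro rfl; omega
    · intro k j h; omega
    · intro i j _ _ h
      exact hA.nz i j h
  have hsupp : Supp p l X := ⟨hX0, hblock, hXc, by rw [hXs]; exact hXc⟩
  -- (2) the sign flip
  have hD := comm_flip (J := triPart p l A) (C := chord p l (A p l)) (triPart_tri hA) hX0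
    (by rw [triPart_add]; exact hcomm)
  have hXl : ∀ j : Fin N, j < p → X l j = 0 := by
    have htr := trace_arg (D := - defect (chord p l (A p l)) X) hA hpl hD (by
      intro i j
      simp only [Matrix.neg_apply]
      congr 1
      by_cases hi : i = p ∧ j < p
      · obtain ⟨rfl, hj⟩ := hi
        rw [defect_left hl hplt hsupp hj, defect_right hl hplt hsupp hj, hXs]
      · by_cases hj : j = p ∧ i < p
        · obtain ⟨rfl, hi'⟩ := hj
          rw [defect_left hl hplt hsupp hi', defect_right hl hplt hsupp hi', hXs]
        · rw [defect_zero hl hplt hsupp hi hj, defect_zero hl hplt hsupp hj hi]) (by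
      intro i j h1 h2
      rw [Matrix.neg_apply, defect_zero hl hplt hsupp h1 h2, neg_zero])
    intro j hj
    have hj' : j.val < p.val := hj
    have := htr (p.val - j.val) j (by omega) (by omega)
    rw [Matrix.neg_apply, defect_left hl hplt hsupp hj] at this
    have h2 : 2 * A p l * X l j = 0 := by linarith
    exact (mul_eq_zero.mp h2).resolve_left (mul_ne_zero two_ne_zero hA.nzc)
  have hXl' : ∀ k : Fin N, k ≤ p → X k l = 0 := by
    intro k hk
    rcases hk.eq_or_lt with rfl | hk
    · exact hXc
    · rw [hXs]; exact hXl k hk
  -- first column after `p`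
  have hp1 : p.val + 1 < N := by have := l.isLt; omega
  set p1 : Fin N := ⟨p.val + 1, hp1⟩ with hp1def
  have hp1v : p1.val = p.val + 1 := rfl
  have hXp1 : ∀ k : Fin N, k ≤ p → X k p1 = 0 := by
    intro k hk
    rcases hk.eq_or_lt with rfl | hk
    · exact hX0 _ _ (by omega) (by omega)
    · have hk' : k.val < p.val := hk
      have hc := comm_entry hcomm k p
      have hL : ∑ i, A k i * X i p = 0 := by
        refine Finset.sum_eq_zero fun i _ => ?_
        by_cases h : A k i = 0
        · rw [h]; ring
        · have := hnb k i (by rintro rfl; omega) (by rintro rfl; omega) h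
          have hi : i ≤ p := by
            rw [Fin.le_def]
            rcases this with h | rfl | h <;> omega
          rw [hblock i p hi le_rfl]; ring
      have hR : ∑ i, X k i * A i p = X k p1 * A p1 p := by
        refine Finset.sum_eq_single p1 ?_ (fun h => absurd (Finset.mem_univ _) h)
        intro i _ hi
        rcases le_or_gt i p with h | h
        · rw [hblock k i hk.le h]; ring
        · have h' : p.val < i.val := h
          by_cases hil : i = l
          · rw [hil, hXl' k hk.le]; ring
          · have hne : i.val ≠ p.val + 1 := fun h'' => hi (Fin.ext h'')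
            rw [hA.symm i p, hA.z p i (by omega) (by rintro ⟨_, h2⟩; exact hil h2)]; ring
      rw [hL, hR] at hc
      exact (mul_eq_zero.mp hc.symm).resolve_right (by rw [hA.symm]; exact hA.nz p p1 rfl)
  -- (3) support from the left
  have hleft : ∀ s : ℕ, ∀ k i : Fin N, k.val + s ≤ p.val + 1 → i.val = p.val + s → i ≤ l →
      X k i = 0 := by
    intro s
    induction s using Nat.strong_induction_on with
    | _ s IH =>
      intro k i hks hi _
      rcases Nat.lt_or_ge s 2 with hs | hs
      · interval_cases s
        · have : i = p := Fin.ext (by omega)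
          subst this
          by_cases hkp : k ≤ i
          · exact hblock k i hkp le_rfl
          · have : ¬ k.val ≤ i.val := hkp
            exact hX0 _ _ (by omega) (by omega)
        · have : i = p1 := Fin.ext (by omega)
          rw [this]
          exact hXp1 k (by rw [Fin.le_def]; omega)
      · obtain ⟨t, rfl⟩ : ∃ t, s = t + 1 := ⟨s - 1, by omega⟩
        have hit : i.val - 1 < N := by have := i.isLt; omega
        set i0 : Fin N := ⟨i.val - 1, hit⟩ with hi0
        have hi0v : i0.val = i.val - 1 := rfl
        have hi0l : i0.val < l.val := by have : i.val ≤ l.val := hl i; omega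
        have hc := comm_entry hcomm k i0
        have hL : ∑ r, A k r * X r i0 = 0 := by
          refine Finset.sum_eq_zero fun r _ => ?_
          by_cases h : A k r = 0
          · rw [h]; ring
          · have hr := hnb k r (by rintro rfl; omega) (by rintro rfl; omega) h
            rw [IH t (by omega) r i0 (by rcases hr with h | rfl | h <;> omega) (by omega)
              (hl _)]
            ring
        have hR : ∑ r, X k r * A r i0 = X k i * A i i0 := by
          refine Finset.sum_eq_single i ?_ (fun h => absurd (Finset.mem_univ _) h)
          intro r _ hr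
          by_cases h : A i0 r = 0
          · rw [hA.symm r i0, h]; ring
          · rcases hnb i0 r (by intro h'; have := congrArg Fin.val h'; omega)
              (by intro h'; have := congrArg Fin.val h'; omega) h with h' | rfl | h'
            · rw [IH (t - 1) (by omega) k r (by omega) (by omega) (hl _)]; ring
            · rw [IH t (by omega) k i0 (by omega) (by omega) (hl _)]; ring
            · exact absurd (Fin.ext (by omega)) hr
        rw [hL, hR] at hc
        exact (mul_eq_zero.mp hc.symm).resolve_right
          (by rw [hA.symm]; exact hA.nz i0 i (by omega))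
  -- support from the right
  have hright : ∀ s : ℕ, ∀ k i : Fin N, 1 ≤ s → k.val + s ≤ p.val + 1 → i.val + s = l.val + 1 →
      p.val < i.val → X k i = 0 := by
    intro s
    induction s using Nat.strong_induction_on with
    | _ s IH =>
      intro k i hs1 hks hi hpi
      rcases Nat.lt_or_ge s 2 with hs | hs
      · have : i = l := Fin.ext (by omega)
        rw [this]
        exact hXl' k (by rw [Fin.le_def]; omega)
      · obtain ⟨t, rfl⟩ : ∃ t, s = t + 1 := ⟨s - 1, by omega⟩
        have hit : i.val + 1 < N := by have := l.isLt; omega
        set i0 : Fin N := ⟨i.val + 1, hit⟩ with hi0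
        have hi0v : i0.val = i.val + 1 := rfl
        have hc := comm_entry hcomm k i0
        have hL : ∑ r, A k r * X r i0 = 0 := by
          refine Finset.sum_eq_zero fun r _ => ?_
          by_cases h : A k r = 0
          · rw [h]; ring
          · have hr := hnb k r (by rintro rfl; omega) (by rintro rfl; omega) h
            rw [IH t (by omega) r i0 (by omega) (by rcases hr with h | rfl | h <;> omega) (by omega)
              (by omega)]
            ring
        have hR : ∑ r, X k r * A r i0 = X k i * A i i0 := by
          refine Finset.sum_eq_single i ?_ (fun h => absurd (Finset.mem_univ _) h)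
          intro r _ hr
          by_cases h : A i0 r = 0
          · rw [hA.symm r i0, h]; ring
          · by_cases hrp : r ≤ p
            · rw [hblock k r (by rw [Fin.le_def]; omega) hrp]; ring
            · have hrp' : ¬ r.val ≤ p.val := hrp
              have hrl : r.val ≤ l.val := hl r
              have hil : i0.val ≤ l.val := hl i0
              have hr3 : r.val + 1 = i0.val ∨ r = i0 ∨ r.val = i0.val + 1 := by
                by_contra hcc
                push Not at hcc
                rcases lt_trichotomy i0.val r.val with h5 | h5 | h5
                · exact h (hA.z i0 r (by omega) (by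
                    rintro ⟨h1, _⟩; have := congrArg Fin.val h1; omega))
                · exact hcc.2.1 (Fin.ext h5.symm)
                · exact h (by
                    rw [hA.symm]
                    exact hA.z r i0 (by omega) (by
                      rintro ⟨h1, _⟩; have := congrArg Fin.val h1; omega))
              rcases hr3 with h' | rfl | h'
              · exact absurd (Fin.ext (by omega)) hr
              · rw [IH t (by omega) k i0 (by omega) (by omega) (by omega) (by omega)]; ring
              · rw [IH (t - 1) (by omega) k r (by omega) (by omega) (by omega) (by omega)]; ring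
        rw [hL, hR] at hc
        exact (mul_eq_zero.mp hc.symm).resolve_right (hA.nz i i0 (by omega))
  -- rows `0, ..., p` vanish
  have hrow : ∀ t : ℕ, ∀ k : Fin N, k.val = t → t ≤ p.val → ∀ i, X k i = 0 := by
    intro t
    induction t using Nat.strong_induction_on with
    | _ t IH =>
      intro k hk htp i
      rcases le_or_gt i p with hip | hip
      · exact hblock k i (by rw [Fin.le_def]; omega) hip
      · have hip' : p.val < i.val := hip
        have hil : i.val ≤ l.val := hl i
        by_cases ht : t = 0
        · by_cases h1 : i.val ≤ 2 * p.val + 1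
          · exact hleft (i.val - p.val) k i (by omega) (by omega) (hl _)
          · exact hright (l.val + 1 - i.val) k i (by omega) (by omega) (by omega) hip'
        · have hk1 : k.val - 1 < N := by have := k.isLt; omega
          set k0 : Fin N := ⟨k.val - 1, hk1⟩ with hk0
          have hk0v : k0.val = k.val - 1 := rfl
          have hc := comm_entry hcomm k0 i
          have hR : ∑ r, X k0 r * A r i = 0 := by
            refine Finset.sum_eq_zero fun r _ => ?_
            rw [IH (t - 1) (by omega) k0 (by omega) (by omega) r]; ring
          have hL : ∑ r, A k0 r * X r i = A k0 k * X k i := by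
            refine Finset.sum_eq_single k ?_ (fun h => absurd (Finset.mem_univ _) h)
            intro r _ hr
            by_cases h : A k0 r = 0
            · rw [h]; ring
            · rcases hnb k0 r (by intro h'; have := congrArg Fin.val h'; omega)
                (by intro h'; have := congrArg Fin.val h'; omega) h with h' | h' | h'
              · rw [IH r.val (by omega) r rfl (by omega) i]; ring
              · have := congrArg Fin.val h'
                rw [IH r.val (by omega) r rfl (by omega) i]; ring
              · exact absurd (Fin.ext (by omega)) hr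
          rw [hL, hR] at hc
          exact (mul_eq_zero.mp hc).resolve_left (hA.nz k0 k (by omega))
  have hrow' : ∀ k i : Fin N, k ≤ p → X k i = 0 := fun k i hk =>
    hrow k.val k rfl hk i
  -- (4) the cycle block
  have hfin := chain (p.val + 1) l.val hA.symm hXs hX0 hcomm (by
      intro i k h1 h2 hik
      left
      refine hnb i k ?_ ?_ hik
      · rintro rfl; omega
      · rintro rfl; omega) (by
      intro k j h1 _ _
      exact hrow' k j (by rw [Fin.le_def]; omega)) (by
      intro i j _ _ h
      exact hA.nz i j h)
  ext i j
  rcases le_or_gt i p with hi | hi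
  · exact hrow' i j hi
  · rcases le_or_gt j p with hj | hj
    · rw [hXs]; exact hrow' j i hj
    · have hi' : p.val < i.val := hi
      have hj' : p.val < j.val := hj
      exact hfin i j (by omega) (hl i) (by omega) (hl j)

end Pool.Agent.Lib_helper85.SSP
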